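import Pool.Agent.N911.A5
import Pool.Agent.H419R2.A4

/-! Cycles of reduced forms of even length `2 h`, and the fundamental domain attached to them. -/

namespace Pool.Agent.N156.EP

open H419R2 QuadraticAlgebra Module
open Pool.Agent.N911 (dt)

variable {R m : ℤ}

/-- A cycle: partial quotients `κ`, forms `(q n, b n, -q (n+1))`, even period `2 h`. -/
structure ECyc (R m : ℤ) where
  /-- half of the period -/
  h : ℕ
  hh : 0 < h
  /-- partial quotients -/
  κ : ℕ → ℕ
  /-- outer coefficients -/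
  q : ℕ → ℤ
  /-- middle coefficients -/
  b : ℕ → ℤ
  κpos : ∀ n, 0 < κ n
  qpos : ∀ n, 0 < q n
  m_pos : 0 < m
  κper : ∀ n, κ (n + 2 * h) = κ n
  qper : ∀ n, q (n + 2 * h) = q n
  bper : ∀ n, b (n + 2 * h) = b n
  q0 : q 0 = 1
  q1 : q 1 = R
  b0 : b 0 = m
  recq : ∀ n, q (n + 2) = q n + b n * κ n - q (n + 1) * (κ n : ℤ) ^ 2
  recb : ∀ n, b (n + 1) = 2 * κ n * q (n + 1) - b n
  /-- no nontrivial unit inside the period -/
  qone : ∀ n, q n = 1 → n % (2 * h) = 0

namespace ECyc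

variable (C : ECyc R m)

/-- convergents -/
def α : ℕ → QA R m
  | 0 => ⟨1, 0⟩
  | 1 => ⟨0, 1⟩
  | (n + 2) => ⟨(α n).re + C.κ n * (α (n + 1)).re, (α n).im + C.κ n * (α (n + 1)).im⟩

theorem α_zero : C.α 0 = ⟨1, 0⟩ := by rw [α]
theorem α_one : C.α 1 = ⟨0, 1⟩ := by rw [α]
theorem α_re (n : ℕ) : (C.α (n + 2)).re = (C.α n).re + C.κ n * (C.α (n + 1)).re := by rw [α]
theorem α_im (n : ℕ) : (C.α (n + 2)).im = (C.α n).im + C.κ n * (C.α (n + 1)).im := by rw [α]

/-- combination of consecutive convergents -/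
def lc (n : ℕ) (u w : ℤ) : QA R m :=
  ⟨u * (C.α n).re + w * (C.α (n + 1)).re, u * (C.α n).im + w * (C.α (n + 1)).im⟩

theorem lc_succ (n : ℕ) (u w : ℤ) : C.lc (n + 1) u w = C.lc n w (u + C.κ n * w) := by
  unfold lc
  ext
  · simp only [α_re]; ring
  · simp only [α_im]; ring

theorem norm_lc (n : ℕ) (u w : ℤ) : QuadraticAlgebra.norm (C.lc n u w) =
    (-1) ^ n * (C.q n * u ^ 2 + C.b n * u * w - C.q (n + 1) * w ^ 2) := by
  induction n generalizing u w with
  | zero =>
    rw [norm_eq]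
    simp only [lc, α_zero, zero_add, α_one, C.q0, C.q1, C.b0]
    ring
  | succ n ih =>
    rw [lc_succ, ih, C.recq, C.recb]
    ring

theorem lc_one_zero (n : ℕ) : C.lc n 1 0 = C.α n := by
  unfold lc; ext <;> simp

theorem norm_α (n : ℕ) : QuadraticAlgebra.norm (C.α n) = (-1) ^ n * C.q n := by
  have h := C.norm_lc n 1 0
  rw [lc_one_zero] at h
  rw [h]; ring

theorem dt_α (n : ℕ) : dt (C.α n) (C.α (n + 1)) = (-1) ^ n := by
  induction n with
  | zero => simp [dt, α_zero, α_one]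
  | succ n ih =>
    have : dt (C.α (n + 1)) (C.α (n + 2)) = - dt (C.α n) (C.α (n + 1)) := by
      unfold dt
      rw [α_re, α_im]
      ring
    rw [this, ih]; ring

theorem α_nonneg (n : ℕ) : 0 ≤ (C.α n).re ∧ 0 ≤ (C.α n).im ∧ 0 ≤ (C.α (n + 1)).re ∧
    0 < (C.α (n + 1)).im := by
  induction n with
  | zero => simp [α_zero, α_one]
  | succ n ih =>
    obtain ⟨h1, h2, h3, h4⟩ := ih
    have hκ : (0 : ℤ) < C.κ n := by exact_mod_cast C.κpos n
    refine ⟨h3, h4.le, ?_, ?_⟩
    · rw [α_re]; positivity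
    · rw [α_im]; positivity

theorem D_pos (C : ECyc R m) : 0 < m ^ 2 + 4 * R := by
  have h1 := C.qpos 1
  rw [C.q1] at h1
  positivity

theorem T2_odd (n : ℕ) : T2 (C.α (2 * n + 1)) := by
  refine ⟨?_, (C.α_nonneg (2 * n)).2.2.2⟩
  rw [norm_α, pow_succ, pow_mul]
  have := C.qpos (2 * n + 1)
  simp
  exact this

theorem T1_even (n : ℕ) : T1 (C.α (2 * n)) := by
  refine ⟨?_, ?_⟩
  · rw [norm_α, pow_mul]
    have := C.qpos (2 * n)
    simp
    exact this
  · rw [QuadraticAlgebra.trace_def]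
    have hm := C.m_pos
    rcases Nat.eq_zero_or_pos n with h | h
    · subst h; simp [α_zero]
    · obtain ⟨k, rfl⟩ : ∃ k, n = k + 1 := ⟨n - 1, by omega⟩
      have h1 := C.α_nonneg (2 * k + 1)
      have e : 2 * (k + 1) = 2 * k + 1 + 1 := by ring
      rw [e]
      have h2 := h1.2.2.1
      have h3 := h1.2.2.2
      positivity

theorem dt_neg (C : ECyc R m) {w z : QA R m} (hw : T2 w) (hz : T1 z) : dt w z < 0 := by
  have h1 := trace_sq z
  have h2 := trace_sq w
  have h3 := pos_aux2 C.D_pos hw.2 hz.2 (a := -QuadraticAlgebra.trace w) (d := z.im)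
    (by linarith [hw.1]) (by linarith [hz.1])
  have h4 : 2 * dt w z = QuadraticAlgebra.trace w * z.im - w.im * QuadraticAlgebra.trace z := by
    simp only [dt, QuadraticAlgebra.trace_def]
    ring
  linarith

theorem dt_anti (w z : QA R m) : dt z w = - dt w z := by
  unfold dt; ring

/-- type by parity -/
def Ty (n : ℕ) (z : QA R m) : Prop := if n % 2 = 0 then T1 z else T2 z

omit C in
theorem Ty_congr {n n' : ℕ} (h : n % 2 = n' % 2) (z : QA R m) : Ty n z ↔ Ty n' z := by
  unfold Ty; rw [h]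

/-- position of `z` with respect to the convergent `α n` -/
def s (n : ℕ) (z : QA R m) : ℤ := (-1) ^ n * dt (C.α n) z

theorem sgn_neg {n : ℕ} {z : QA R m} (hz : Ty n z) : (-1) ^ n * dt (C.α (n + 1)) z < 0 := by
  unfold Ty at hz
  rcases Nat.even_or_odd' n with ⟨k, rfl | rfl⟩
  · rw [if_pos (by omega)] at hz
    rw [pow_mul]
    have := C.dt_neg (C.T2_odd k) hz
    simpa using this
  · rw [if_neg (by omega)] at hz
    rw [pow_succ, pow_mul]
    have h2 : T1 (C.α (2 * k + 1 + 1)) := by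
      have := C.T1_even (k + 1)
      rwa [show 2 * (k + 1) = 2 * k + 1 + 1 by ring] at this
    have := C.dt_neg hz h2
    rw [dt_anti] at this
    simp only [even_two, Even.neg_pow, one_pow, one_mul, neg_mul, Left.neg_neg_iff]
    linarith

theorem s_step (n : ℕ) (z : QA R m) :
    C.s (n + 2) z = C.s n z + C.κ n * ((-1) ^ n * dt (C.α (n + 1)) z) := by
  unfold s dt
  rw [α_re, α_im, pow_add]
  ring

theorem s_anti {n : ℕ} {z : QA R m} (hz : Ty n z) : C.s (n + 2) z < C.s n z := by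
  rw [s_step]
  have h1 := C.sgn_neg hz
  have hκ : (0 : ℤ) < C.κ n := by exact_mod_cast C.κpos _
  nlinarith

theorem s_strictAnti {n : ℕ} {z : QA R m} (hz : Ty n z) :
    StrictAnti (fun j => C.s (n + 2 * j) z) := by
  apply strictAnti_nat_of_succ_lt
  intro j
  have h1 : Ty (n + 2 * j) z := (Ty_congr (by omega) z).mp hz
  have := C.s_anti h1
  rwa [show n + 2 * (j + 1) = n + 2 * j + 2 by ring]

theorem s_zero (z : QA R m) : C.s 0 z = z.im := by
  simp [s, dt, α_zero]

theorem s_one (z : QA R m) : C.s 1 z = z.re := by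
  simp [s, dt, α_one]

/-- coordinates with respect to consecutive convergents -/
theorem lc_coords (n : ℕ) (z : QA R m) :
    z = C.lc n (-((-1) ^ n * dt (C.α (n + 1)) z)) (C.s n z) := by
  have h := C.dt_α n
  have h2 : ((-1 : ℤ) ^ n) * (-1) ^ n = 1 := by
    rw [← mul_pow]; simp
  unfold lc s
  unfold dt at h ⊢
  ext
  · simp only
    linear_combination (-(-1) ^ n * z.re) * h - z.re * h2
  · simp only
    linear_combination (-(-1) ^ n * z.im) * h - z.im * h2

theorem dt_lc (n : ℕ) (u w : ℤ) : C.s n (C.lc n u w) = w ∧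
    (-1) ^ n * dt (C.α (n + 1)) (C.lc n u w) = -u := by
  have h := C.dt_α n
  have h2 : ((-1 : ℤ) ^ n) * (-1) ^ n = 1 := by
    rw [← mul_pow]; simp
  unfold lc s
  unfold dt at h ⊢
  constructor
  · simp only
    linear_combination ((-1) ^ n * w) * h + w * h2
  · simp only
    linear_combination (-(-1) ^ n * u) * h - u * h2

/-- the unit -/
def e : QA R m := C.α (2 * C.h)

theorem norm_e : QuadraticAlgebra.norm C.e = 1 := by
  unfold e
  rw [norm_α, pow_mul]
  have := C.qper 0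
  rw [zero_add, C.q0] at this
  rw [this]; simp

theorem T1_e : T1 C.e := C.T1_even C.h

/-- the unit -/
def eu : (QA R m)ˣ where
  val := C.e
  inv := star C.e
  val_inv := by
    rw [← QuadraticAlgebra.algebraMap_norm_eq_mul_star, C.norm_e]; simp
  inv_val := by
    rw [mul_comm, ← QuadraticAlgebra.algebraMap_norm_eq_mul_star, C.norm_e]; simp

theorem α_one_per : C.α (2 * C.h + 1) = C.α 1 * C.e := by
  have h1 := C.norm_lc (2 * C.h) 1 1
  have h2 := C.dt_α (2 * C.h)
  have h3 := C.norm_e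
  have h4 := C.norm_lc (2 * C.h) 0 1
  have q0 := C.qper 0
  have q1 := C.qper 1
  have b0 := C.bper 0
  rw [zero_add, C.q0] at q0
  rw [C.q1, add_comm 1 (2 * C.h)] at q1
  rw [zero_add, C.b0] at b0
  rw [q0, q1, b0, pow_mul, norm_eq] at h1
  rw [q0, q1, b0, pow_mul, norm_eq] at h4
  rw [norm_eq] at h3
  rw [pow_mul] at h2
  simp only [lc, even_two, Even.neg_pow, one_pow, one_mul, zero_mul, zero_add, mul_one, mul_zero,
    add_zero] at h1 h2 h4
  have he : C.e = C.α (2 * C.h) := rfl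
  rw [← he] at h1 h2
  rw [α_one]
  set a := C.α (2 * C.h + 1) with ha
  unfold dt at h2
  -- polar form
  have h5 : 2 * C.e.re * a.re + m * (C.e.re * a.im + C.e.im * a.re) - 2 * R * (C.e.im * a.im) = m := by
    linear_combination h1 - h3 - h4
  ext
  · simp only [QuadraticAlgebra.re_mul]
    have : 2 * a.re = 2 * (R * C.e.im) := by
      linear_combination C.e.re * h5 - (m * C.e.re - 2 * R * C.e.im) * h2 - 2 * a.re * h3
    linarith
  · simp only [QuadraticAlgebra.im_mul]
    have : 2 * a.im = 2 * (C.e.re + m * C.e.im) := by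
      linear_combination (2 * C.e.re + m * C.e.im) * h2 + C.e.im * h5 - 2 * a.im * h3
    linarith

theorem α_per (n : ℕ) : C.α (n + 2 * C.h) = C.α n * C.e := by
  induction n using Nat.strong_induction_on with
  | _ n ih =>
    rcases n with _ | _ | n
    · rw [zero_add, α_zero]
      change C.e = _
      ext <;> simp
    · rw [add_comm (0 + 1)]; exact C.α_one_per
    · have h0 := ih n (by omega)
      have h1 := ih (n + 1) (by omega)
      rw [show n + 1 + 1 + 2 * C.h = n + 2 * C.h + 2 by ring]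
      rw [show n + 1 + 2 * C.h = n + 2 * C.h + 1 by ring] at h1
      ext
      · rw [α_re, h0, h1, C.κper]
        simp only [QuadraticAlgebra.re_mul, α_re, α_im]
        ring
      · rw [α_im, h0, h1, C.κper]
        simp only [QuadraticAlgebra.im_mul, α_re, α_im]
        ring

theorem dt_mul (x y e : QA R m) : dt (x * e) (y * e) = QuadraticAlgebra.norm e * dt x y := by
  rw [norm_eq]
  unfold dt
  simp only [QuadraticAlgebra.re_mul, QuadraticAlgebra.im_mul]
  ring

theorem s_per (n : ℕ) (z : QA R m) :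
    C.s (n + 2 * C.h) z = C.s n (z * ((C.eu⁻¹ : (QA R m)ˣ) : QA R m)) := by
  have h3 : z * ((C.eu⁻¹ : (QA R m)ˣ) : QA R m) * C.e = z := by
    have : C.e = (C.eu : QA R m) := rfl
    rw [this, Units.inv_mul_cancel_right]
  unfold s
  rw [α_per, pow_add, pow_mul]
  have h4 := dt_mul (C.α n) (z * ((C.eu⁻¹ : (QA R m)ˣ) : QA R m)) C.e
  rw [h3, C.norm_e, one_mul] at h4
  rw [h4]
  simp

theorem mono_s {n : ℕ} {z : QA R m} (hz : Ty n (z * C.e)) : C.s n z < C.s n (z * C.e) := by
  have h1 := C.s_strictAnti hz C.hh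
  simp only [mul_zero, add_zero] at h1
  rw [C.s_per] at h1
  have h3 : z * C.e * ((C.eu⁻¹ : (QA R m)ˣ) : QA R m) = z := by
    have : C.e = (C.eu : QA R m) := rfl
    rw [this, Units.mul_inv_cancel_right]
  rw [h3] at h1
  exact h1

/-- the fundamental domain -/
def fd : FD R m where
  e := C.eu
  he := C.norm_e
  het := C.T1_e.2
  hD := C.D_pos
  h1 := C.s 0
  h2 := C.s 1
  mono1 := fun z hz => C.mono_s (n := 0) (by
    unfold Ty; rw [if_pos rfl]; exact T1_mul C.D_pos hz C.T1_e)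
  mono2 := fun z hz => C.mono_s (n := 1) (by
    unfold Ty; rw [if_neg (by norm_num)]; exact T2_mul C.D_pos hz C.T1_e)

/-- the domain of one parity -/
def Dm (n : ℕ) (z : QA R m) : Prop := Ty n z ∧ 0 ≤ C.s n z ∧ C.s (n + 2 * C.h) z < 0

theorem dom_iff' (z : QA R m) : C.fd.Dom z ↔ C.Dm 0 z ∨ C.Dm 1 z := by
  unfold FD.Dom Dm Ty
  rw [s_per, s_per, if_pos rfl, if_neg (by norm_num)]
  constructor
  · rintro (⟨a, b, c⟩ | ⟨a, b, c⟩)
    · exact Or.inl ⟨a, c, b⟩
    · exact Or.inr ⟨a, c, b⟩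
  · rintro (⟨a, b, c⟩ | ⟨a, b, c⟩)
    · exact Or.inl ⟨a, c, b⟩
    · exact Or.inr ⟨a, c, b⟩

end ECyc

end Pool.Agent.N156.EP
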