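import Pool.Agent.N156.EP.A1

/-! Parametrisation of the fundamental domain by wedges, for cycles of even length. -/

namespace Pool.Agent.N156.EP

open H419R2 QuadraticAlgebra Module
open Pool.Agent.N911 (dt fv fv_pos fv_large)

variable {R m : ℤ}

namespace ECyc

variable (C : ECyc R m)

/-- index type -/
abbrev Ind := Σ j : Fin (2 * C.h), Idx (C.κ (j : ℕ))

/-- generators -/
def gen (p : C.Ind) : QA R m := C.lc (p.1 : ℕ) (p.2.1 : ℤ) ((p.2.2 : ℕ) : ℤ)

theorem disc (n : ℕ) : C.b n ^ 2 + 4 * (C.q n * C.q (n + 1)) = m ^ 2 + 4 * R := by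
  induction n with
  | zero => rw [C.b0, C.q0, zero_add, C.q1]; ring
  | succ n ih =>
    rw [← ih, C.recb, C.recq]
    ring

theorem pos' (n : ℕ) : 0 < C.q n + C.b n * C.κ n - C.q (n + 1) * (C.κ n : ℤ) ^ 2 := by
  rw [← C.recq]; exact C.qpos _

theorem norm_lc' (n : ℕ) (U Z : ℤ) : QuadraticAlgebra.norm (C.lc n U Z) =
    (-1) ^ n * fv (C.q n) (C.b n) (C.q (n + 1)) U Z := by
  rw [norm_lc]
  rfl

theorem dm_lc {n : ℕ} (hn : n < 2 * C.h) {U Z : ℤ} (hU : 0 < U) (hZ : 0 ≤ Z)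
    (hZU : Z < C.κ n * U) : C.Dm (n % 2) (C.lc n U Z) := by
  have hf := fv_pos (C.κpos n) (C.qpos n) (C.qpos (n + 1)) (C.pos' n) hU hZ hZU.le
  have hT : Ty n (C.lc n U Z) := by
    unfold Ty
    rcases Nat.even_or_odd' n with ⟨k, rfl | rfl⟩
    · rw [if_pos (by omega)]
      refine ⟨?_, ?_⟩
      · rw [norm_lc', pow_mul]
        simpa using hf
      · rw [QuadraticAlgebra.trace_def]
        unfold lc
        simp only
        have h := C.α_nonneg (2 * k)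
        have hm := C.m_pos
        have h1 := (C.T1_even k).2
        rw [QuadraticAlgebra.trace_def] at h1
        have h2 := h.2.2.1
        have h3 := h.2.2.2.le
        have h4 : 0 < U * (2 * (C.α (2 * k)).re + m * (C.α (2 * k)).im) := mul_pos hU h1
        have h5 : 0 ≤ Z * (2 * (C.α (2 * k + 1)).re + m * (C.α (2 * k + 1)).im) := by positivity
        nlinarith
    · rw [if_neg (by omega)]
      refine ⟨?_, ?_⟩
      · rw [norm_lc', pow_succ, pow_mul]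
        simpa using hf
      · unfold lc
        simp only
        have h := C.α_nonneg (2 * k + 1)
        have h1 := (C.T2_odd k).2
        have h3 := h.2.2.2.le
        positivity
  have hs : C.s n (C.lc n U Z) = Z := (C.dt_lc n U Z).1
  have hs' : C.s (n + 2) (C.lc n U Z) < 0 := by
    rw [s_step, hs, (C.dt_lc n U Z).2]
    linarith
  refine ⟨(Ty_congr (by omega) _).mpr hT, ?_, ?_⟩
  · have := (C.s_strictAnti ((Ty_congr (n := n) (n' := n % 2) (by omega) _).mp hT)).antitone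
      (Nat.zero_le (n / 2))
    rw [show n % 2 + 2 * (n / 2) = n by omega, hs] at this
    simp only [mul_zero, add_zero] at this
    linarith
  · have := (C.s_strictAnti ((Ty_congr (n := n) (n' := n % 2) (by omega) _).mp hT)).antitone
      (show n / 2 + 1 ≤ C.h by omega)
    rw [show n % 2 + 2 * (n / 2 + 1) = n + 2 by omega] at this
    linarith

theorem gen_dm (p : C.Ind) : C.Dm ((p.1 : ℕ) % 2) (C.gen p) := by
  obtain ⟨h1, h2, h3⟩ := idx_facts p.2
  exact C.dm_lc p.1.2 h1 h2 h3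

theorem gen_dom (p : C.Ind) : C.fd.Dom (C.gen p) := by
  rw [dom_iff']
  have h := C.gen_dm p
  rcases Nat.mod_two_eq_zero_or_one (p.1 : ℕ) with h0 | h0
  · rw [h0] at h; exact Or.inl h
  · rw [h0] at h; exact Or.inr h

theorem dm_range {σ : ℕ} (hσ : σ < 2) {z : QA R m} (hz : C.Dm σ z) : z ∈ Set.range C.gen := by
  obtain ⟨hT, h0, hl⟩ := hz
  classical
  have hex : ∃ j, C.s (σ + 2 * j) z < 0 := ⟨_, hl⟩
  have hj0 := Nat.find_spec hex
  have hjl : Nat.find hex ≤ C.h := Nat.find_min' hex hl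
  have hjpos : Nat.find hex ≠ 0 := by
    intro h
    rw [h, mul_zero, add_zero] at hj0
    linarith
  obtain ⟨j, hj⟩ : ∃ j, Nat.find hex = j + 1 := ⟨Nat.find hex - 1, by omega⟩
  have hjm : ¬ C.s (σ + 2 * j) z < 0 := Nat.find_min hex (by omega)
  rw [hj] at hj0 hjl
  push Not at hjm
  have hT' : Ty (σ + 2 * j) z := (Ty_congr (by omega) z).mp hT
  have hneg := C.sgn_neg hT'
  rw [show σ + 2 * (j + 1) = σ + 2 * j + 2 by ring, s_step] at hj0
  obtain ⟨p, hp1, hp2⟩ := idx_mk (κ := C.κ (σ + 2 * j))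
    (a := -((-1) ^ (σ + 2 * j) * dt (C.α (σ + 2 * j + 1)) z)) (b := C.s (σ + 2 * j) z)
    (by linarith) hjm (by linarith)
  refine ⟨⟨⟨σ + 2 * j, by omega⟩, p⟩, ?_⟩
  unfold gen
  simp only
  rw [hp1, hp2]
  exact (C.lc_coords (σ + 2 * j) z).symm

theorem dom_iff (z : QA R m) : C.fd.Dom z ↔ z ∈ Set.range C.gen := by
  constructor
  · intro h
    rw [dom_iff'] at h
    rcases h with h | h
    · exact C.dm_range (by norm_num) h
    · exact C.dm_range (by norm_num) h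
  · rintro ⟨p, rfl⟩
    exact C.gen_dom p

theorem not_T1_T2 {z : QA R m} (h1 : T1 z) (h2 : T2 z) : False := by
  linarith [h1.1, h2.1]

theorem gen_inj : Function.Injective C.gen := by
  intro p p' h
  have key : ∀ p : C.Ind, C.s (p.1 : ℕ) (C.gen p) = ((p.2.2 : ℕ) : ℤ) ∧
      C.s ((p.1 : ℕ) + 2) (C.gen p) < 0 ∧
      (-1) ^ (p.1 : ℕ) * dt (C.α ((p.1 : ℕ) + 1)) (C.gen p) = -(p.2.1 : ℤ) := by
    intro p
    obtain ⟨h1, h2, h3⟩ := idx_facts p.2
    have a1 := C.dt_lc (p.1 : ℕ) (p.2.1 : ℤ) ((p.2.2 : ℕ) : ℤ)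
    refine ⟨a1.1, ?_, a1.2⟩
    rw [s_step]
    have a2 : C.s (p.1 : ℕ) (C.gen p) = ((p.2.2 : ℕ) : ℤ) := a1.1
    have a3 : (-1) ^ (p.1 : ℕ) * dt (C.α ((p.1 : ℕ) + 1)) (C.gen p) = -(p.2.1 : ℤ) := a1.2
    rw [a2, a3]
    linarith
  have hty : ∀ p : C.Ind, Ty (p.1 : ℕ) (C.gen p) := fun p =>
    (Ty_congr (by omega) _).mp (C.gen_dm p).1
  have hpar : (p.1 : ℕ) % 2 = (p'.1 : ℕ) % 2 := by
    have a := hty p
    have b := hty p'
    rw [h] at a
    unfold Ty at a b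
    by_cases h1 : (p.1 : ℕ) % 2 = 0
    · rw [if_pos h1] at a
      by_cases h2 : (p'.1 : ℕ) % 2 = 0
      · omega
      · rw [if_neg h2] at b
        exact absurd (not_T1_T2 a b) id
    · rw [if_neg h1] at a
      by_cases h2 : (p'.1 : ℕ) % 2 = 0
      · rw [if_pos h2] at b
        exact absurd (not_T1_T2 b a) id
      · omega
  have hlt : ∀ p p' : C.Ind, C.gen p = C.gen p' → (p.1 : ℕ) % 2 = (p'.1 : ℕ) % 2 →
      ¬ ((p.1 : ℕ) < (p'.1 : ℕ)) := by
    intro p p' h hpar hlt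
    have a := (key p).2.1
    have b := (key p').1
    have hT := hty p
    have c := (C.s_strictAnti hT).antitone (show 1 ≤ ((p'.1 : ℕ) - (p.1 : ℕ)) / 2 by omega)
    rw [show (p.1 : ℕ) + 2 * (((p'.1 : ℕ) - (p.1 : ℕ)) / 2) = (p'.1 : ℕ) by omega, mul_one] at c
    rw [h] at a c
    have d : (0 : ℤ) ≤ ((p'.2.2 : ℕ) : ℤ) := Int.natCast_nonneg _
    linarith
  have hj : (p.1 : ℕ) = (p'.1 : ℕ) := by
    rcases lt_trichotomy (p.1 : ℕ) (p'.1 : ℕ) with h' | h' | h'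
    · exact absurd h' (hlt p p' h hpar)
    · exact h'
    · exact absurd h' (hlt p' p h.symm hpar.symm)
  obtain ⟨j, x⟩ := p
  obtain ⟨j', x'⟩ := p'
  have hjj : j = j' := Fin.ext hj
  subst hjj
  congr 1
  have k1 := key ⟨j, x⟩
  have k2 := key ⟨j, x'⟩
  rw [h] at k1
  apply idx_ext
  · have a := k1.2.2
    have b := k2.2.2
    simp only at a b
    linarith
  · have a := k1.1
    have b := k2.1
    simp only at a b
    rw [← a, ← b]

theorem D_ge (C : ECyc R m) : 5 ≤ m ^ 2 + 4 * R := by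
  have h1 := C.qpos 1
  rw [C.q1] at h1
  have h2 := C.m_pos
  nlinarith

/-- small norms -/
theorem small_norm (p : C.Ind) :
    (((QuadraticAlgebra.norm (C.gen p)).natAbs : ℤ) = C.q (p.1 : ℕ) * (p.2.1 : ℤ) ^ 2 ∧
      (p.2.2 : ℕ) = 0) ∨
    m ^ 2 + 4 * R < 4 * ((QuadraticAlgebra.norm (C.gen p)).natAbs : ℤ) ^ 2 := by
  obtain ⟨h1, h2, h3⟩ := idx_facts p.2
  have hf := fv_pos (C.κpos (p.1 : ℕ)) (C.qpos (p.1 : ℕ)) (C.qpos ((p.1 : ℕ) + 1))
    (C.pos' (p.1 : ℕ)) h1 h2 h3.le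
  have hn : ((QuadraticAlgebra.norm (C.gen p)).natAbs : ℤ) =
      fv (C.q (p.1 : ℕ)) (C.b (p.1 : ℕ)) (C.q ((p.1 : ℕ) + 1)) (p.2.1 : ℤ) ((p.2.2 : ℕ) : ℤ) := by
    unfold gen
    rw [norm_lc', Int.natAbs_mul, Int.natAbs_pow]
    simp only [Int.reduceNeg, Int.natAbs_neg, Int.natAbs_one, one_pow, one_mul, Int.natCast_natAbs]
    exact abs_of_pos hf
  rw [hn]
  rcases h2.eq_or_lt with h4 | h4
  · left
    refine ⟨?_, by exact_mod_cast h4.symm⟩
    rw [← h4]
    unfold fv; ring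
  · right
    rw [← C.disc (p.1 : ℕ)]
    exact fv_large (C.κpos _) (C.qpos _) (C.qpos _) (C.pos' _) h4 h3

theorem hone (z : QA R m) (hz : C.fd.Dom z) (h : (QuadraticAlgebra.norm z).natAbs = 1) :
    z = 1 := by
  obtain ⟨p, rfl⟩ := (C.dom_iff z).mp hz
  obtain ⟨h1, h2, h3⟩ := idx_facts p.2
  rcases C.small_norm p with ⟨hn, hz0⟩ | h4
  · rw [h] at hn
    have h5 : C.q (p.1 : ℕ) ∣ 1 := ⟨_, by exact_mod_cast hn⟩
    have h6 : C.q (p.1 : ℕ) = 1 := Int.eq_one_of_dvd_one (C.qpos _).le h5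
    have h7 := C.qone _ h6
    rw [h6, one_mul] at hn
    have h8 : (p.2.1 : ℤ) = 1 := by
      push_cast at hn
      nlinarith
    have h9 : (p.1 : ℕ) = 0 := by
      have hlt := p.1.2
      rwa [Nat.mod_eq_of_lt hlt] at h7
    obtain ⟨⟨j, hj⟩, ⟨U, Z⟩⟩ := p
    simp only at h9 h8 hz0
    subst h9
    unfold gen
    simp only
    rw [h8, hz0]
    unfold lc
    simp only [zero_add, α_zero, α_one]
    ext <;> simp
  · rw [h] at h4
    have := C.D_ge
    push_cast at h4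
    omega

end ECyc

section dom

variable [IsDomain (QA R m)]

theorem ECyc.surj (C : ECyc R m) {z : QA R m} (hz : z ≠ 0) :
    ∃ z' : QA R m, C.fd.Dom z' ∧ Ideal.span {z'} = Ideal.span {z} := C.fd.surj hz

theorem ECyc.inj (C : ECyc R m) {z z' : QA R m} (hz : C.fd.Dom z) (hz' : C.fd.Dom z')
    (h : Ideal.span {z} = Ideal.span {z'}) : z = z' := C.fd.inj C.hone hz hz' h

end dom

end Pool.Agent.N156.EP
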