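import Pool.Agent.N156.EP.A2

/-! The main identity for a cycle of even length. -/

namespace Pool.Agent.N156.EP

open H419R2 QuadraticAlgebra Module Finset Filter Topology
open Pool.Agent.N911 (dt fv compare1 hasSum_sigma_fin SS_bz SS_shear)

variable {R m : ℤ}

namespace ECyc

variable (C : ECyc R m)

/-- the wedge at `n` -/
def wd (n : ℕ) : Wedge where
  κ := C.κ n
  a := ((C.q n : ℤ) : ℝ)
  b := ((C.b n : ℤ) : ℝ)
  d := ((-C.q (n + 1) : ℤ) : ℝ)
  δ := 1
  hδ := one_pos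
  hpos := by
    rintro σ ⟨h1, h2⟩
    have hκ : (0 : ℝ) < C.κ n := by exact_mod_cast C.κpos n
    have hA : (1 : ℝ) ≤ ((C.q n : ℤ) : ℝ) := by exact_mod_cast C.qpos n
    have hC : (1 : ℝ) ≤ ((C.q (n + 1) : ℤ) : ℝ) := by exact_mod_cast C.qpos (n + 1)
    have hA' : (1 : ℝ) ≤ ((C.q (n + 2) : ℤ) : ℝ) := by exact_mod_cast C.qpos (n + 2)
    have hr := C.recq n
    have hr' : ((C.q (n + 2) : ℤ) : ℝ) = ((C.q n : ℤ) : ℝ) + ((C.b n : ℤ) : ℝ) * C.κ n -
      ((C.q (n + 1) : ℤ) : ℝ) * (C.κ n : ℝ) ^ 2 := by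
      rw [hr]; push_cast; ring
    have h : (C.κ n : ℝ) * (((C.q n : ℤ) : ℝ) + ((C.b n : ℤ) : ℝ) * σ +
        ((-C.q (n + 1) : ℤ) : ℝ) * σ ^ 2) = ((C.q n : ℤ) : ℝ) * (C.κ n - σ) +
        ((C.q (n + 2) : ℤ) : ℝ) * σ + C.κ n * ((C.q (n + 1) : ℤ) : ℝ) * (σ * (C.κ n - σ)) := by
      rw [hr']; push_cast; ring
    have h3 : 0 ≤ C.κ n - σ := by linarith
    have h4 : (C.κ n - σ) ≤ ((C.q n : ℤ) : ℝ) * (C.κ n - σ) := by nlinarith
    have h5 : σ ≤ ((C.q (n + 2) : ℤ) : ℝ) * σ := by nlinarith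
    have h6 : 0 ≤ C.κ n * ((C.q (n + 1) : ℤ) : ℝ) * (σ * (C.κ n - σ)) := by positivity
    have h7 : (C.κ n : ℝ) * 1 ≤ (C.κ n : ℝ) * (((C.q n : ℤ) : ℝ) + ((C.b n : ℤ) : ℝ) * σ +
        ((-C.q (n + 1) : ℤ) : ℝ) * σ ^ 2) := by
      rw [h]; linarith
    exact le_of_mul_le_mul_left h7 hκ

section sums

variable {N : ℕ} [NeZero N] (F : ZMod N → ℝ)

/-- form modulo `N` -/
def fz (N : ℕ) (n : ℕ) (u w : ZMod N) : ZMod N :=
  (C.q n : ZMod N) * u ^ 2 + (C.b n : ZMod N) * (u * w) - (C.q (n + 1) : ZMod N) * w ^ 2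

omit [NeZero N] in
theorem fz_step (n : ℕ) (u w : ZMod N) :
    C.fz N n u ((C.κ n : ZMod N) * u + w) = -C.fz N (n + 1) w u := by
  unfold fz
  have h1 : (C.q (n + 1 + 1) : ZMod N) = (C.q n : ZMod N) + (C.b n : ZMod N) * (C.κ n : ZMod N) -
      (C.q (n + 1) : ZMod N) * (C.κ n : ZMod N) ^ 2 := by
    rw [show n + 1 + 1 = n + 2 from rfl, C.recq]; push_cast; ring
  have h2 : (C.b (n + 1) : ZMod N) = 2 * (C.κ n : ZMod N) * (C.q (n + 1) : ZMod N) - (C.b n : ZMod N) := by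
    rw [C.recb]; push_cast; ring
  rw [h1, h2]
  ring

/-- first sum -/
noncomputable def EE (n : ℕ) : ℝ := SS (fun u w => F (C.fz N n u w) * (B1 u * B1 w))

/-- second sum -/
noncomputable def YY (n : ℕ) : ℝ := SS (fun u w => F (C.fz N n u w) * B2 w)

variable {F}

theorem XX_eq (hodd : ∀ x, F (-x) = -F x) (n : ℕ) :
    SS (fun u w => F (C.fz N n u w) * B2 u) = - C.YY F (n + 1) := by
  rw [SS_shear (C.κ n : ZMod N)]
  unfold YY
  rw [SS_swap (fun u w => F (C.fz N (n + 1) u w) * B2 w)]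
  have : SS (fun x y => F (C.fz N n x ((C.κ n : ZMod N) * x + y)) * B2 x) =
      SS (fun x y => (-1) * (F (C.fz N (n + 1) y x) * B2 x)) := by
    apply SS_congr
    intro x y
    rw [C.fz_step, hodd]; ring
  rw [this, SS_mul]; ring

theorem C0_wd (hodd : ∀ x, F (-x) = -F x) (n : ℕ) :
    (C.wd n).C0 N (fun u w => F (C.fz N n u w)) =
      C.EE F n + C.EE F (n + 1) + C.κ n / 2 * C.YY F (n + 1) +
        C.b (n + 1) / (4 * C.q (n + 2)) * C.YY F (n + 2) + C.b n / (4 * C.q n) * C.YY F n := by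
  have hF0 : F 0 = 0 := by
    have := hodd 0
    rw [neg_zero] at this
    linarith
  have hev : ∀ n (u w : ZMod N), F (C.fz N n (-u) (-w)) = F (C.fz N n u w) := by
    intro n u w; congr 1; unfold fz; ring
  have h00 : ∀ n, F (C.fz N n 0 0) = 0 := by
    intro n
    have : C.fz N n 0 0 = 0 := by unfold fz; ring
    rw [this, hF0]
  have hC := (C.wd n).C0_eq (fun u w => F (C.fz N n u w))
  have hκ : (((C.wd n).κ : ℕ) : ZMod N) = (C.κ n : ZMod N) := rfl
  have e1 : SS (fun u w => F (C.fz N n u w) * B2 u) = - C.YY F (n + 1) := C.XX_eq hodd n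
  have e2 : SS (fun u w : ZMod N => F (C.fz N n u (((C.wd n).κ : ℕ) * u + w)) * (bz u * bz w)) =
      - C.EE F (n + 1) := by
    unfold EE
    rw [← SS_bz (hev (n + 1)) (h00 (n + 1)),
      SS_swap (fun u w : ZMod N => F (C.fz N (n + 1) u w) * (bz u * bz w))]
    have : SS (fun u w : ZMod N => F (C.fz N n u (((C.wd n).κ : ℕ) * u + w)) * (bz u * bz w)) =
      SS (fun x y => (-1) * (F (C.fz N (n + 1) y x) * (bz y * bz x))) := by
      apply SS_congr
      intro x y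
      rw [hκ, C.fz_step, hodd]; ring
    rw [this, SS_mul]; ring
  have e3 : SS (fun u w : ZMod N => F (C.fz N n u w) * (bz u * bz w)) = C.EE F n :=
    SS_bz (hev n) (h00 n)
  have e4 : SS (fun u w : ZMod N => F (C.fz N n u (((C.wd n).κ : ℕ) * u + w)) * B2 w) =
      C.YY F (n + 2) := by
    have h1 := C.XX_eq hodd (n + 1)
    have h2 : SS (fun u w : ZMod N => F (C.fz N n u (((C.wd n).κ : ℕ) * u + w)) * B2 w) =
      SS (fun x y => (-1) * (F (C.fz N (n + 1) y x) * B2 y)) := by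
      apply SS_congr
      intro x y
      rw [hκ, C.fz_step, hodd]; ring
    rw [h2, SS_mul, ← SS_swap (fun x y => F (C.fz N (n + 1) x y) * B2 x), h1]; ring
  have g1 : (C.wd n).gs (C.wd n).κ = C.q (n + 2) := by
    have hr := C.recq n
    have hr' : ((C.q (n + 2) : ℤ) : ℝ) = ((C.q n : ℤ) : ℝ) + ((C.b n : ℤ) : ℝ) * C.κ n -
      ((C.q (n + 1) : ℤ) : ℝ) * (C.κ n : ℝ) ^ 2 := by
      rw [hr]; push_cast; ring
    simp only [Wedge.gs, wd]
    rw [hr']; push_cast; ring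
  have g2 : (C.wd n).gs 0 = C.q n := by simp [Wedge.gs, wd]
  have g3 : (C.wd n).b + 2 * (C.wd n).d * (C.wd n).κ = - C.b (n + 1) := by
    have hr := C.recb n
    have hr' : ((C.b (n + 1) : ℤ) : ℝ) = 2 * C.κ n * C.q (n + 1) - C.b n := by
      rw [hr]; push_cast; ring
    simp only [wd]
    rw [hr']; push_cast; ring
  have g4 : (C.wd n).b = C.b n := rfl
  have g5 : (((C.wd n).κ : ℕ) : ℝ) = C.κ n := rfl
  have e5 : SS (fun u w => F (C.fz N n u w) * B2 w) = C.YY F n := rfl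
  rw [hC, e1, e2, e3, e4, g1, g2, g3, g4, g5, e5]
  ring

/-- summand -/
noncomputable def HH (F : ZMod N → ℝ) (n : ℕ) : ℝ := C.EE F n + C.κ n / 2 * C.YY F (n + 1)

/-- telescoping term -/
noncomputable def WW (F : ZMod N → ℝ) (n : ℕ) : ℝ := C.b n / (4 * C.q n) * C.YY F n

theorem C0_wd' (hodd : ∀ x, F (-x) = -F x) (n : ℕ) :
    (C.wd n).C0 N (fun u w => F (C.fz N n u w)) =
      C.HH F n + C.HH F (n + 1) + C.WW F n - C.WW F (n + 2) := by
  rw [C.C0_wd hodd]
  unfold HH WW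
  have hr' : ((C.b (n + 1 + 1) : ℤ) : ℝ) = 2 * C.κ (n + 1) * C.q (n + 2) - C.b (n + 1) := by
    rw [C.recb (n + 1)]; push_cast; ring
  have hq : (C.q (n + 2) : ℝ) ≠ 0 := by
    have := C.qpos (n + 2)
    have h : (0 : ℝ) < C.q (n + 2) := by exact_mod_cast this
    exact h.ne'
  have hr2 : (C.b (n + 1) : ℝ) / (4 * C.q (n + 2)) = C.κ (n + 1) / 2 - C.b (n + 2) / (4 * C.q (n + 2)) := by
    have : (C.b (n + 2) : ℝ) = 2 * C.κ (n + 1) * C.q (n + 2) - C.b (n + 1) := hr'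
    rw [this]
    field_simp
    ring
  rw [hr2]
  ring

theorem sum_C0 (hodd : ∀ x, F (-x) = -F x) (k : ℕ) :
    ∑ n ∈ range k, (C.wd n).C0 N (fun u w => F (C.fz N n u w)) =
      2 * ∑ n ∈ range k, C.HH F n + C.HH F k - C.HH F 0 + C.WW F 0 + C.WW F 1 - C.WW F k -
        C.WW F (k + 1) := by
  induction k with
  | zero => simp
  | succ k ih =>
    rw [Finset.sum_range_succ, ih, C.C0_wd' hodd, Finset.sum_range_succ]
    ring

omit [NeZero N] in
theorem fz_per (n : ℕ) (u w : ZMod N) : C.fz N (n + 2 * C.h) u w = C.fz N n u w := by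
  unfold fz
  rw [C.qper, C.bper, show n + 2 * C.h + 1 = (n + 1) + 2 * C.h by ring, C.qper]

theorem YY_per (n : ℕ) : C.YY F (n + 2 * C.h) = C.YY F n := by
  unfold YY
  simp only [fz_per]

theorem EE_per (n : ℕ) : C.EE F (n + 2 * C.h) = C.EE F n := by
  unfold EE
  simp only [fz_per]

theorem HH_per (n : ℕ) : C.HH F (n + 2 * C.h) = C.HH F n := by
  unfold HH
  rw [EE_per, C.κper, show n + 2 * C.h + 1 = (n + 1) + 2 * C.h by ring, YY_per]

theorem WW_per (n : ℕ) : C.WW F (n + 2 * C.h) = C.WW F n := by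
  unfold WW
  rw [YY_per, C.bper, C.qper]

theorem sum_C0' (hodd : ∀ x, F (-x) = -F x) :
    ∑ n ∈ range (2 * C.h), (C.wd n).C0 N (fun u w => F (C.fz N n u w)) =
      2 * ∑ n ∈ range (2 * C.h), C.HH F n := by
  rw [C.sum_C0 hodd]
  have h1 := C.WW_per (F := F) 0
  have h2 := C.WW_per (F := F) 1
  have h3 := C.HH_per (F := F) 0
  rw [zero_add] at h1 h3
  rw [add_comm (2 * C.h) 1, h1, h2, h3]
  ring

end sums

/-- The main identity. -/
theorem main_identity [IsDomain (QA R m)] [IsPrincipalIdealRing (QA R m)]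
    {D N : ℕ} [NeZero N] (hD : (D : ℤ) = m ^ 2 + 4 * R) (hD1 : 1 < D) (hm : m % 2 = 1)
    (hR : R % 2 = 1) (hcop : N.Coprime D) {F : ZMod N → ℝ} (hodd : ∀ x, F (-x) = -F x) :
    (∑ l ∈ range (N * D), ∑ a ∈ range N, (l : ℝ) * a * jacobiSym l D * F ((a * l : ℕ)))
        / (N * (N * D)) = 2 * ∑ n ∈ range (2 * C.h), C.HH F n := by
  rw [← C.sum_C0' hodd]
  have hΦ : ∀ x, |F x| ≤ ∑ x : ZMod N, |F x| := fun x =>
    Finset.single_le_sum (f := fun x => |F x|) (fun _ _ => abs_nonneg _) (Finset.mem_univ x)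
  rw [← Fin.sum_univ_eq_sum_range
    (fun n => (C.wd n).C0 N (fun u w => F (C.fz N n u w))) (2 * C.h)]
  have hfz : ∀ n, (fun (u w : ℕ) => F (C.fz N n u w)) = (fun u w : ℕ => F ((C.q n : ZMod N) * (u : ZMod N) ^ 2 +
      (C.b n : ZMod N) * u * w + ((-C.q (n + 1) : ℤ) : ZMod N) * (w : ZMod N) ^ 2)) := by
    intro n
    funext u w
    congr 1
    unfold fz
    push_cast; ring
  have hexpf : ∀ n, HasExp ((C.wd n).WS (fun u w => F (C.fz N n u w)))
      ((C.wd n).C0 N (fun u w => F (C.fz N n u w))) := by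
    intro n
    have h := (C.wd n).hasExp F (C.q n) (C.b n) (-C.q (n + 1))
    rw [hfz n]
    exact h
  refine compare1 C.gen ?_ ?_ hD hD1 hm hR hcop hodd
    (W := fun t => ∑ j : Fin (2 * C.h), (C.wd (j : ℕ)).WS (fun u w => F (C.fz N (j : ℕ) u w)) t)
    ?_ ?_
  · intro p p' h
    exact C.gen_inj (C.inj (C.gen_dom p) (C.gen_dom p') h)
  · intro I
    constructor
    · intro hI
      obtain ⟨z, rfl⟩ := exists_gen I
      have hz : z ≠ 0 := by
        rintro rfl; simp at hI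
      obtain ⟨z', h1, h2⟩ := C.surj hz
      obtain ⟨p, rfl⟩ := (C.dom_iff z').mp h1
      exact ⟨p, h2⟩
    · rintro ⟨p, rfl⟩
      simp only [ne_eq, Ideal.span_singleton_eq_bot]
      intro h
      have h1 := (C.gen_dom p).types
      rw [h] at h1
      rcases h1 with h1 | h1
      · have := h1.1
        simp at this
      · have := h1.1
        simp at this
  · have hsm : ∀ᶠ t in 𝓝[>] (0 : ℝ), ∀ j : Fin (2 * C.h), 0 < t ∧ t * (C.wd (j : ℕ)).Γ ≤ 1 := by
      rw [Filter.eventually_all]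
      intro j
      exact (C.wd (j : ℕ)).small
    filter_upwards [hsm] with t ht
    apply hasSum_sigma_fin
    intro j
    have := (C.wd (j : ℕ)).hasSum_int hΦ (a := C.q j) (b := C.b j)
      (d := -C.q (j + 1)) rfl rfl rfl (ht j).1 (ht j).2
    rw [hfz]
    refine (congrArg (fun g : Idx (C.κ (j : ℕ)) → ℝ => HasSum g _) (funext fun p => ?_)).mpr this
    have e : (QuadraticAlgebra.norm (C.gen ⟨j, p⟩)).natAbs =
        (C.q j * (p.1 : ℤ) ^ 2 + C.b j * p.1 * ((p.2 : ℕ) : ℤ) +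
          -C.q (j + 1) * ((p.2 : ℕ) : ℤ) ^ 2).natAbs := by
      unfold gen
      rw [norm_lc', Int.natAbs_mul, Int.natAbs_pow]
      simp only [Int.reduceNeg, Int.natAbs_neg, Int.natAbs_one, one_pow, one_mul]
      unfold fv
      congr 1
      ring
    rw [e]
  · have : ∀ s : Finset (Fin (2 * C.h)), HasExp
        (fun t => ∑ j ∈ s, (C.wd (j : ℕ)).WS (fun u w => F (C.fz N (j : ℕ) u w)) t)
        (∑ j ∈ s, (C.wd (j : ℕ)).C0 N (fun u w => F (C.fz N (j : ℕ) u w))) := by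
      classical
      intro s
      induction s using Finset.induction_on with
      | empty =>
        refine ⟨0, 0, 0, ?_⟩
        filter_upwards with t
        simp
      | insert j s hj ih =>
        have h1 := HasExp.add (hexpf (j : ℕ)) ih
        simp only [Finset.sum_insert hj]
        exact h1
    exact this Finset.univ

end ECyc

end Pool.Agent.N156.EP
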