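import Pool.Agent.N156.EP.A3
import Pool.Agent.N911.A4

/-! Cycles of length 2 and 4 and the relation in terms of `(t, P, a, b)`. -/

namespace Pool.Agent.N156.EP

open H419R2 QuadraticAlgebra Module Finset Filter Topology
open Pool.Agent.N911 (dt fv Ef Yf Xf Ef_mirror Yf_mirror Ef_neg)

/-- value by residue modulo two -/
def v2 {α : Type} (x0 x1 : α) (n : ℕ) : α := if n % 2 = 0 then x0 else x1

/-- value by residue modulo four -/
def v4 {α : Type} (x0 x1 x2 x3 : α) (n : ℕ) : α :=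
  if n % 4 = 0 then x0 else if n % 4 = 1 then x1 else if n % 4 = 2 then x2 else x3

theorem v2_per {α : Type} (x0 x1 : α) (n : ℕ) : v2 x0 x1 (n + 2 * 1) = v2 x0 x1 n := by
  unfold v2
  rw [show (n + 2 * 1) % 2 = n % 2 by omega]

theorem v4_per {α : Type} (x0 x1 x2 x3 : α) (n : ℕ) :
    v4 x0 x1 x2 x3 (n + 2 * 2) = v4 x0 x1 x2 x3 n := by
  unfold v4
  rw [show (n + 2 * 2) % 4 = n % 4 by omega]

/-- period two -/
def cyc2 (a t : ℕ) (P : ℤ) (ha : 0 < a) (ht : 0 < t) (hP : 1 < P)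
    (hc : (t : ℤ) = a * P) : ECyc P (t : ℤ) where
  h := 1
  hh := one_pos
  κ := v2 a t
  q := v2 1 P
  b := fun _ => (t : ℤ)
  κpos := by intro n; unfold v2; split_ifs <;> assumption
  qpos := by intro n; unfold v2; split_ifs <;> linarith
  m_pos := by exact_mod_cast ht
  κper := v2_per _ _
  qper := v2_per _ _
  bper := fun _ => rfl
  q0 := rfl
  q1 := rfl
  b0 := rfl
  recq := by
    intro n
    unfold v2
    have h : n % 2 = 0 ∨ n % 2 = 1 := by omega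
    rcases h with h | h
    · rw [show (n + 1) % 2 = 1 by omega, show (n + 2) % 2 = 0 by omega, h]
      simp
      linear_combination -(a : ℤ) * hc
    · rw [show (n + 1) % 2 = 0 by omega, show (n + 2) % 2 = 1 by omega, h]
      simp
      ring
  recb := by
    intro n
    unfold v2
    have h : n % 2 = 0 ∨ n % 2 = 1 := by omega
    rcases h with h | h
    · rw [show (n + 1) % 2 = 1 by omega, h]
      simp
      linear_combination 2 * hc
    · rw [show (n + 1) % 2 = 0 by omega, h]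
      simp
      ring
  qone := by
    intro n h
    unfold v2 at h
    by_contra h0
    rw [mul_one] at h0
    rw [if_neg h0] at h
    linarith

/-- period four -/
def cyc4 (a b t : ℕ) (P Q : ℤ) (ha : 0 < a) (hb : 0 < b) (ht : 0 < t) (hP : 1 < P) (hQ : 1 < Q)
    (hQe : 1 + a * t - (a : ℤ) ^ 2 * P = Q)
    (hc : b * Q = 2 * a * P - t) : ECyc P (t : ℤ) where
  h := 2
  hh := two_pos
  κ := v4 a b a t
  q := v4 1 P Q P
  b := v4 (t : ℤ) (2 * a * P - t) (2 * a * P - t) t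
  κpos := by intro n; unfold v4; split_ifs <;> assumption
  qpos := by intro n; unfold v4; split_ifs <;> linarith
  m_pos := by exact_mod_cast ht
  κper := v4_per _ _ _ _
  qper := v4_per _ _ _ _
  bper := v4_per _ _ _ _
  q0 := rfl
  q1 := rfl
  b0 := rfl
  recq := by
    intro n
    unfold v4
    have h : n % 4 = 0 ∨ n % 4 = 1 ∨ n % 4 = 2 ∨ n % 4 = 3 := by omega
    rcases h with h | h | h | h
    · rw [show (n + 1) % 4 = 1 by omega, show (n + 2) % 4 = 2 by omega, h]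
      simp
      linear_combination -hQe
    · rw [show (n + 1) % 4 = 2 by omega, show (n + 2) % 4 = 3 by omega, h]
      simp
      linear_combination (b : ℤ) * hc
    · rw [show (n + 1) % 4 = 3 by omega, show (n + 2) % 4 = 0 by omega, h]
      simp
      linear_combination hQe
    · rw [show (n + 1) % 4 = 0 by omega, show (n + 2) % 4 = 1 by omega, h]
      simp
      ring
  recb := by
    intro n
    unfold v4
    have h : n % 4 = 0 ∨ n % 4 = 1 ∨ n % 4 = 2 ∨ n % 4 = 3 := by omega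
    rcases h with h | h | h | h
    · rw [show (n + 1) % 4 = 1 by omega, h]
      simp
    · rw [show (n + 1) % 4 = 2 by omega, h]
      simp
      linear_combination -2 * hc
    · rw [show (n + 1) % 4 = 3 by omega, h]
      simp
    · rw [show (n + 1) % 4 = 0 by omega, h]
      simp
      ring
  qone := by
    intro n h
    unfold v4 at h
    by_contra h0
    rw [show 2 * 2 = 4 from rfl] at h0
    rw [if_neg h0] at h
    split_ifs at h <;> linarith

/-- the relation in real form -/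
noncomputable def RelR4 {N : ℕ} [NeZero N] (F : ZMod N → ℝ) (t P a b : ℤ) : ℝ :=
  4 * Ef F 1 (t : ZMod N) (P : ZMod N) +
  4 * Ef F (P : ZMod N) ((2 * a * P - t : ℤ) : ZMod N) ((1 + a * t - a ^ 2 * P : ℤ) : ZMod N) +
  t * Yf F 1 (t : ZMod N) (P : ZMod N) +
  2 * a * Yf F (P : ZMod N) ((2 * a * P - t : ℤ) : ZMod N) ((1 + a * t - a ^ 2 * P : ℤ) : ZMod N) +
  b * Yf F ((1 + a * t - a ^ 2 * P : ℤ) : ZMod N) ((2 * a * P - t : ℤ) : ZMod N) (P : ZMod N)

section rel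

variable {N : ℕ} [NeZero N] {F : ZMod N → ℝ}

theorem ECyc.EE_eq {R m : ℤ} (C : ECyc R m) (n : ℕ) :
    C.EE F n = Ef F (C.q n : ZMod N) (C.b n : ZMod N) (C.q (n + 1) : ZMod N) := rfl

theorem ECyc.YY_eq {R m : ℤ} (C : ECyc R m) (n : ℕ) :
    C.YY F n = Yf F (C.q n : ZMod N) (C.b n : ZMod N) (C.q (n + 1) : ZMod N) := rfl

theorem ECyc.X_eq {R m : ℤ} (C : ECyc R m) (hodd : ∀ x, F (-x) = -F x) (n : ℕ) :
    Xf F (C.q n : ZMod N) (C.b n : ZMod N) (C.q (n + 1) : ZMod N) = - C.YY F (n + 1) :=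
  C.XX_eq hodd n

theorem rel2 (hodd : ∀ x, F (-x) = -F x) (a t : ℕ) (P : ℤ) (ha : 0 < a) (ht : 0 < t) (hP : 1 < P)
    (hc : (t : ℤ) = a * P) :
    2 * (2 * ∑ n ∈ range (2 * (cyc2 a t P ha ht hP hc).h), (cyc2 a t P ha ht hP hc).HH F n) =
      RelR4 F t P a t := by
  set C := cyc2 a t P ha ht hP hc with hC
  have e1 : ∑ n ∈ range (2 * C.h), C.HH F n = C.HH F 0 + C.HH F 1 := by
    change ∑ n ∈ range (2 * 1), _ = _
    rw [mul_one, Finset.sum_range_succ, Finset.sum_range_one]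
  rw [e1]
  unfold ECyc.HH
  have q0 : C.q 0 = 1 := rfl
  have q1 : C.q 1 = P := rfl
  have q2 : C.q 2 = 1 := rfl
  have q3 : C.q 3 = P := rfl
  have b0 : C.b 0 = t := rfl
  have b1 : C.b 1 = t := rfl
  have b2 : C.b 2 = t := rfl
  have k0 : (((C.κ 0 : ℕ)) : ℝ) = a := rfl
  have k1 : (((C.κ 1 : ℕ)) : ℝ) = t := rfl
  have E0 : C.EE F 0 = Ef F 1 (t : ZMod N) P := by
    rw [ECyc.EE_eq, zero_add, q0, q1, b0]; push_cast; rfl
  have E1 : C.EE F 1 = Ef F P (t : ZMod N) 1 := by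
    rw [ECyc.EE_eq, show 1 + 1 = 2 from rfl, q1, q2, b1]; push_cast; rfl
  have E1' : Ef F P (t : ZMod N) 1 = Ef F 1 (t : ZMod N) P := Ef_mirror hodd _ _ _
  have Y1 : C.YY F 1 = Yf F P (t : ZMod N) 1 := by
    rw [ECyc.YY_eq, show 1 + 1 = 2 from rfl, q1, q2, b1]; push_cast; rfl
  have Y2 : C.YY F 2 = Yf F 1 (t : ZMod N) P := by
    rw [ECyc.YY_eq, show 2 + 1 = 3 from rfl, q2, q3, b2]; push_cast; rfl
  rw [show 0 + 1 = 1 from rfl, show 1 + 1 = 2 from rfl, E0, E1, Y1, Y2, k0, k1]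
  unfold RelR4
  have f1 : ((2 * a * P - t : ℤ) : ZMod N) = (t : ZMod N) := by
    rw [show (2 * a * P - t : ℤ) = t by linear_combination -2 * hc]; push_cast; rfl
  have f2 : ((1 + a * (t : ℤ) - (a : ℤ) ^ 2 * P : ℤ) : ZMod N) = 1 := by
    rw [show (1 + a * (t : ℤ) - (a : ℤ) ^ 2 * P : ℤ) = 1 by linear_combination (a : ℤ) * hc]
    push_cast; rfl
  rw [f1, f2, E1']
  push_cast
  ring

theorem rel4 (hodd : ∀ x, F (-x) = -F x) (a b t : ℕ) (P Q : ℤ) (ha : 0 < a) (hb : 0 < b)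
    (ht : 0 < t) (hP : 1 < P) (hQ : 1 < Q)
    (hQe : 1 + a * t - (a : ℤ) ^ 2 * P = Q)
    (hc : b * Q = 2 * a * P - t) :
    2 * ∑ n ∈ range (2 * (cyc4 a b t P Q ha hb ht hP hQ hQe hc).h),
      (cyc4 a b t P Q ha hb ht hP hQ hQe hc).HH F n = RelR4 F t P a b := by
  set C := cyc4 a b t P Q ha hb ht hP hQ hQe hc with hC
  have e1 : ∑ n ∈ range (2 * C.h), C.HH F n = C.HH F 0 + C.HH F 1 + C.HH F 2 + C.HH F 3 := by
    change ∑ n ∈ range 4, _ = _
    rw [Finset.sum_range_succ, Finset.sum_range_succ, Finset.sum_range_succ,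
      Finset.sum_range_one]
  rw [e1]
  unfold ECyc.HH
  have q0 : C.q 0 = 1 := rfl
  have q1 : C.q 1 = P := rfl
  have q2 : C.q 2 = Q := rfl
  have q3 : C.q 3 = P := rfl
  have q4 : C.q 4 = 1 := rfl
  have b0 : C.b 0 = t := rfl
  have b1 : C.b 1 = 2 * a * P - t := rfl
  have b2 : C.b 2 = 2 * a * P - t := rfl
  have b3 : C.b 3 = t := rfl
  have k0 : (((C.κ 0 : ℕ)) : ℝ) = a := rfl
  have k1 : (((C.κ 1 : ℕ)) : ℝ) = b := rfl
  have k2 : (((C.κ 2 : ℕ)) : ℝ) = a := rfl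
  have k3 : (((C.κ 3 : ℕ)) : ℝ) = t := rfl
  have E0 : C.EE F 0 = Ef F 1 (t : ZMod N) P := by
    rw [ECyc.EE_eq, zero_add, q0, q1, b0]; push_cast; rfl
  have E1 : C.EE F 1 = Ef F P ((2 * a * P - t : ℤ) : ZMod N) Q := by
    rw [ECyc.EE_eq, show 1 + 1 = 2 from rfl, q1, q2, b1]
  have E2 : C.EE F 2 = Ef F P ((2 * a * P - t : ℤ) : ZMod N) Q := by
    rw [ECyc.EE_eq, show 2 + 1 = 3 from rfl, q2, q3, b2, ← Ef_mirror hodd]
  have E3 : C.EE F 3 = Ef F 1 (t : ZMod N) P := by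
    rw [ECyc.EE_eq, show 3 + 1 = 4 from rfl, q3, q4, b3, Int.cast_one, ← Ef_mirror hodd]
    push_cast; rfl
  have Y1 : C.YY F 1 = Yf F P ((2 * a * P - t : ℤ) : ZMod N) Q := by
    rw [ECyc.YY_eq, show 1 + 1 = 2 from rfl, q1, q2, b1]
  have Y2 : C.YY F 2 = Yf F Q ((2 * a * P - t : ℤ) : ZMod N) P := by
    rw [ECyc.YY_eq, show 2 + 1 = 3 from rfl, q2, q3, b2]
  have Y3 : C.YY F 3 = C.YY F 1 := by
    have h1 := C.X_eq hodd 0
    rw [zero_add, q0, q1, b0] at h1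
    rw [ECyc.YY_eq, show 3 + 1 = 4 from rfl, q3, q4, b3, Yf_mirror hodd, h1, neg_neg]
  have Y4 : C.YY F 4 = Yf F 1 (t : ZMod N) P := by
    have h1 := C.YY_per (F := F) 0
    have h2 : C.YY F 4 = C.YY F 0 := h1
    rw [h2, ECyc.YY_eq, zero_add, q0, q1, b0]; push_cast; rfl
  rw [show 0 + 1 = 1 from rfl, show 1 + 1 = 2 from rfl, show 2 + 1 = 3 from rfl,
    show 3 + 1 = 4 from rfl, E0, E1, E2, E3, Y3, Y4, Y1, Y2, k0, k1, k2, k3]
  unfold RelR4
  have f2 : ((1 + a * (t : ℤ) - (a : ℤ) ^ 2 * P : ℤ) : ZMod N) = Q := by rw [hQe]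
  rw [f2]
  push_cast
  ring

end rel

end Pool.Agent.N156.EP
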