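import Pool.Agent.N156.EP.A4
import Pool.Agent.N911.A5

/-! Integral relations and relations modulo primes, for the cycles of length 2 and 4. -/

namespace Pool.Agent.N156.EP

open H419R2 QuadraticAlgebra Module Finset
open Pool.Agent.N911 (Ef Yf SE SY SE_real SY_real)

section

variable {N : ℕ} [NeZero N]

/-- the relation with values in a ring -/
def RelM4 {M : Type*} [CommRing M] (f : ZMod N → M) (t P a b : ℤ) : M :=
  6 * SE f 1 (t : ZMod N) (P : ZMod N) +
  6 * SE f (P : ZMod N) ((2 * a * P - t : ℤ) : ZMod N) ((1 + a * t - a ^ 2 * P : ℤ) : ZMod N) +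
  t * SY f 1 (t : ZMod N) (P : ZMod N) +
  2 * a * SY f (P : ZMod N) ((2 * a * P - t : ℤ) : ZMod N) ((1 + a * t - a ^ 2 * P : ℤ) : ZMod N) +
  b * SY f ((1 + a * t - a ^ 2 * P : ℤ) : ZMod N) ((2 * a * P - t : ℤ) : ZMod N) (P : ZMod N)

theorem RelM4_real (f : ZMod N → ℤ) (t P a b : ℤ) :
    ((RelM4 f t P a b : ℤ) : ℝ) = 6 * N ^ 2 * RelR4 (fun x => ((f x : ℤ) : ℝ)) t P a b := by
  unfold RelM4 RelR4
  simp only [Int.cast_add, Int.cast_mul (α := ℝ), SE_real, SY_real, Int.cast_id]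
  push_cast
  ring

theorem RelM4_map {M M' : Type*} [CommRing M] [CommRing M'] (φ : M →+* M') (f : ZMod N → M)
    (t P a b : ℤ) : φ (RelM4 f t P a b) = RelM4 (fun x => φ (f x)) t P a b := by
  have h1 : ∀ A B C : ZMod N, φ (SE f A B C) = SE (fun x => φ (f x)) A B C := by
    intro A B C
    unfold SE
    rw [map_sum]
    apply Finset.sum_congr rfl
    intro x _
    rw [map_sum]
    apply Finset.sum_congr rfl
    intro y _
    rw [map_mul, map_intCast]
  have h2 : ∀ A B C : ZMod N, φ (SY f A B C) = SY (fun x => φ (f x)) A B C := by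
    intro A B C
    unfold SY
    rw [map_sum]
    apply Finset.sum_congr rfl
    intro x _
    rw [map_sum]
    apply Finset.sum_congr rfl
    intro y _
    rw [map_mul, map_intCast]
  unfold RelM4
  simp only [map_add, map_mul, h1, h2, map_intCast, map_ofNat]

theorem RelM4_smul {M : Type*} [CommRing M] (c : M) (f : ZMod N → M)
    (t P a b : ℤ) : RelM4 (fun x => c * f x) t P a b = c * RelM4 f t P a b := by
  have h1 : ∀ A B C : ZMod N, SE (fun x => c * f x) A B C = c * SE f A B C := by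
    intro A B C
    unfold SE
    rw [Finset.mul_sum]
    apply Finset.sum_congr rfl
    intro x _
    rw [Finset.mul_sum]
    apply Finset.sum_congr rfl
    intro y _
    ring
  have h2 : ∀ A B C : ZMod N, SY (fun x => c * f x) A B C = c * SY f A B C := by
    intro A B C
    unfold SY
    rw [Finset.mul_sum]
    apply Finset.sum_congr rfl
    intro x _
    rw [Finset.mul_sum]
    apply Finset.sum_congr rfl
    intro y _
    ring
  unfold RelM4
  simp only [h1, h2]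
  ring

end

/-- consequence of class number one for a period of length 2 or 4 -/
structure Good4 (t P a b : ℤ) (D : ℕ) : Prop where
  hD : (D : ℤ) = t ^ 2 + 4 * P
  hD1 : 1 < D
  con : b * (1 + a * t - a ^ 2 * P) = 2 * a * P - t
  rel : P % 2 = 1 → ∀ (N : ℕ) [NeZero N], N.Coprime D → ∀ f : ZMod N → ℤ, (∀ x, f (-x) = -f x) →
    ∃ c : ℤ, (D : ℤ) * RelM4 f t P a b =
    c * ∑ l ∈ range (N * D), ∑ a ∈ range N, (l : ℤ) * a * jacobiSym l D * f ((a * l : ℕ))
  split : ∀ l : ℕ, l.Prime → 4 * (l : ℤ) ^ 2 ≤ D → (∃ w0 : ℤ, (l : ℤ) ∣ w0 ^ 2 + t * w0 - P) →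
    (l : ℤ) = P ∨ (l : ℤ) = 1 + a * t - a ^ 2 * P

theorem rel_int4 {N D : ℕ} [NeZero N] (hD : 0 < D) {t P a b : ℤ} {f : ZMod N → ℤ} {c : ℤ}
    (h : c * ((∑ l ∈ range (N * D), ∑ a ∈ range N, (l : ℝ) * a * jacobiSym l D *
      ((f ((a * l : ℕ)) : ℤ) : ℝ)) / (N * (N * D))) = RelR4 (fun x => ((f x : ℤ) : ℝ)) t P a b) :
    (D : ℤ) * RelM4 f t P a b =
    (6 * c) * ∑ l ∈ range (N * D), ∑ a ∈ range N, (l : ℤ) * a * jacobiSym l D *
      f ((a * l : ℕ)) := by
  have hq := qpos (q := N)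
  have hD' : (0 : ℝ) < D := by exact_mod_cast hD
  have e2 : ((∑ l ∈ range (N * D), ∑ a ∈ range N, (l : ℤ) * a * jacobiSym l D *
      f ((a * l : ℕ)) : ℤ) : ℝ) = ∑ l ∈ range (N * D), ∑ a ∈ range N, (l : ℝ) * a *
      jacobiSym l D * ((f ((a * l : ℕ)) : ℤ) : ℝ) := by
    push_cast
    rfl
  have e3 : (((D : ℤ) * RelM4 f t P a b : ℤ) : ℝ) =
    (((6 * c) * ∑ l ∈ range (N * D), ∑ a ∈ range N, (l : ℤ) * a * jacobiSym l D *
      f ((a * l : ℕ)) : ℤ) : ℝ) := by
    rw [Int.cast_mul, RelM4_real, Int.cast_mul (6 * c), e2, ← h]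
    push_cast
    field_simp
  exact_mod_cast e3

/-- Relation modulo a prime. -/
theorem Good4.rel_mod {t P a b : ℤ} {D : ℕ} (G : Good4 t P a b D) (hP2 : P % 2 = 1)
    {p : ℕ} (hp : p.Prime) (hp2 : p ≠ 2)
    (hpD : ¬ (p : ℤ) ∣ D) {N : ℕ} [NeZero N] (hcop : N.Coprime D) (χ : ZMod N → ZMod p)
    (hmul : ∀ x y, χ (x * y) = χ x * χ y) (hodd : ∀ x, χ (-x) = -χ x)
    (hB : ∑ a ∈ range N, (a : ZMod p) * χ a = 0) :
    RelM4 χ t P a b = 0 := by
  have hF := Fact.mk hp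
  have h2 : (2 : ZMod p) ≠ 0 := by
    intro h
    have : ((2 : ℕ) : ZMod p) = 0 := by exact_mod_cast h
    rw [ZMod.natCast_eq_zero_iff] at this
    exact hp2 ((Nat.prime_dvd_prime_iff_eq hp Nat.prime_two).mp this)
  have hD0 : ((D : ℤ) : ZMod p) ≠ 0 := by
    intro h
    exact hpD ((ZMod.intCast_zmod_eq_zero_iff_dvd _ p).mp h)
  obtain ⟨c, h⟩ := G.rel hP2 N hcop (fun x => ((χ x).val : ℤ) - ((χ (-x)).val : ℤ)) (fun x => by
    rw [neg_neg]; ring)
  have hf : ∀ x, ((((χ x).val : ℤ) - ((χ (-x)).val : ℤ) : ℤ) : ZMod p) = 2 * χ x := by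
    intro x
    push_cast
    rw [ZMod.natCast_zmod_val, ZMod.natCast_zmod_val, hodd]
    ring
  have h' := congrArg (fun z : ℤ => (z : ZMod p)) h
  rw [Int.cast_mul, Int.cast_mul, Int.cast_sum] at h'
  have hR : ∑ l ∈ range (N * D), ((∑ a ∈ range N, (l : ℤ) * a * jacobiSym l D *
      (((χ ((a * l : ℕ))).val : ℤ) - ((χ (-((a * l : ℕ) : ZMod N))).val : ℤ)) : ℤ) : ZMod p) = 0 := by
    apply Finset.sum_eq_zero
    intro l _
    rw [Int.cast_sum]
    have e : ∀ a ∈ range N, (((l : ℤ) * a * jacobiSym l D *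
      (((χ ((a * l : ℕ))).val : ℤ) - ((χ (-((a * l : ℕ) : ZMod N))).val : ℤ)) : ℤ) : ZMod p) =
      ((l : ZMod p) * (jacobiSym l D : ZMod p) * 2 * χ l) * ((a : ZMod p) * χ a) := by
      intro a _
      rw [Int.cast_mul, hf, Nat.cast_mul, hmul]
      push_cast
      ring
    rw [Finset.sum_congr rfl e, ← Finset.mul_sum, hB, mul_zero]
  rw [hR, mul_zero] at h'
  rcases mul_eq_zero.mp h' with h3 | h3
  · exact absurd h3 hD0
  · have e := RelM4_map (Int.castRingHom (ZMod p))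
      (fun x => ((χ x).val : ℤ) - ((χ (-x)).val : ℤ)) t P a b
    simp only [eq_intCast] at e
    rw [h3] at e
    have e2 : RelM4 (fun x => ((((χ x).val : ℤ) - ((χ (-x)).val : ℤ) : ℤ) : ZMod p)) t P a b =
        2 * RelM4 χ t P a b := by
      rw [← RelM4_smul]
      congr 1
      funext x
      exact hf x
    rw [e2] at e
    rcases mul_eq_zero.mp e.symm with h4 | h4
    · exact absurd h4 h2
    · exact h4

/-- splitting primes are norms in the cycle -/
theorem ECyc.split_norm {P t : ℤ} [IsDomain (QA P t)] [IsPrincipalIdealRing (QA P t)]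
    (C : ECyc P t) {D : ℕ} (hD : (D : ℤ) = t ^ 2 + 4 * P) {l : ℕ} (hl : l.Prime)
    (hlD : 4 * (l : ℤ) ^ 2 ≤ D) (h : ∃ w0 : ℤ, (l : ℤ) ∣ w0 ^ 2 + t * w0 - P) :
    ∃ n, C.q n = l := by
  obtain ⟨w0, hw0⟩ := h
  obtain ⟨z, hz⟩ := exists_norm_prime hl hw0
  have hz0 : z ≠ 0 := by
    rintro rfl
    have := hl.pos
    simp at hz
    omega
  obtain ⟨z', h1, h2⟩ := C.surj hz0
  obtain ⟨p, rfl⟩ := (C.dom_iff z').mp h1
  have h3 := congrArg Ideal.absNorm h2
  rw [absNorm_span, absNorm_span, hz] at h3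
  rcases C.small_norm p with ⟨hn, _⟩ | h5
  · rw [h3] at hn
    refine ⟨(p.1 : ℕ), ?_⟩
    have h6 : (C.q (p.1 : ℕ)).natAbs ∣ l := by
      have : C.q (p.1 : ℕ) ∣ (l : ℤ) := ⟨_, hn⟩
      have := Int.natAbs_dvd_natAbs.mpr this
      simpa using this
    rcases (Nat.dvd_prime hl).mp h6 with h7 | h7
    · exfalso
      have h8 : C.q (p.1 : ℕ) = 1 := by
        have := C.qpos (p.1 : ℕ)
        omega
      rw [h8, one_mul] at hn
      have h9 : l = p.2.1 * p.2.1 := by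
        have : (l : ℤ) = ((p.2.1 * p.2.1 : ℕ) : ℤ) := by rw [hn]; push_cast; ring
        exact_mod_cast this
      exact (Irreducible.not_isSquare hl) ⟨p.2.1, h9⟩
    · have := C.qpos (p.1 : ℕ)
      omega
  · rw [h3, ← hD] at h5
    linarith

/-- the general passage from a cycle to `Good4` -/
theorem good_of_ecyc {P : ℤ} {t : ℕ} (C : ECyc P (t : ℤ)) {D : ℕ}
    (hD : (D : ℤ) = (t : ℤ) ^ 2 + 4 * P)
    (hsf : Squarefree (D : ℤ)) (ht : t % 2 = 1) {a b : ℤ}
    (con : b * (1 + a * t - a ^ 2 * P) = 2 * a * P - t)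
    (hq : ∀ n, C.q n = 1 ∨ C.q n = P ∨ C.q n = 1 + a * t - a ^ 2 * P) (c : ℤ)
    (hrel : ∀ (N : ℕ) [NeZero N] (F : ZMod N → ℝ), (∀ x, F (-x) = -F x) →
      c * (2 * ∑ n ∈ range (2 * C.h), C.HH F n) = RelR4 F t P a b)
    {K : Type*} [Field K] [NumberField K] (hK : Module.finrank ℚ K = 2) {x : K}
    (hx : x ^ 2 = ((D : ℤ) : K)) (hcl : NumberField.classNumber K = 1) :
    Good4 t P a b D := by
  have hD5 := C.D_ge
  have hD1' : (1 : ℤ) < D := by rw [hD]; linarith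
  have hD1 : 1 < D := by exact_mod_cast hD1'
  have hm' : (t : ℤ) % 2 = 1 := by exact_mod_cast ht
  have i1 : IsDomain (QA P (t : ℤ)) := isDomain_of hD hsf hD1'
  have i2 : IsPrincipalIdealRing (QA P (t : ℤ)) :=
    pid_of_classNumber_one hm' hD hsf hD1' hK hx hcl
  refine ⟨hD, hD1, con, ?_, ?_⟩
  · intro hP2 N hN hcop f hf
    refine ⟨6 * c, ?_⟩
    apply rel_int4 (by omega)
    have h := C.main_identity (F := fun x => ((f x : ℤ) : ℝ)) hD hD1 hm' hP2 hcop
      (fun x => by rw [hf]; push_cast; ring)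
    rw [h]
    exact hrel N _ (fun x => by rw [hf]; push_cast; ring)
  · intro l hl hlD hw
    obtain ⟨n, hn⟩ := C.split_norm hD hl hlD hw
    rcases hq n with h | h | h
    · exfalso
      rw [h] at hn
      have : l = 1 := by exact_mod_cast hn.symm
      exact hl.one_lt.ne' this
    · left; rw [← hn, h]
    · right; rw [← hn, h]

/-- period two -/
theorem good2 {t a : ℕ} {P : ℤ} (ht0 : 0 < t) (ha : 0 < a) (hP : 1 < P)
    (hc : (t : ℤ) = a * P)
    {D : ℕ} (hD : (D : ℤ) = (t : ℤ) ^ 2 + 4 * P)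
    (hsf : Squarefree (D : ℤ)) (ht : t % 2 = 1)
    {K : Type*} [Field K] [NumberField K] (hK : Module.finrank ℚ K = 2) {x : K}
    (hx : x ^ 2 = ((D : ℤ) : K)) (hcl : NumberField.classNumber K = 1) :
    Good4 t P a t D := by
  have e : 1 + (a : ℤ) * t - (a : ℤ) ^ 2 * P = 1 := by linear_combination (a : ℤ) * hc
  refine good_of_ecyc (cyc2 a t P ha ht0 hP hc) hD hsf ht ?_ ?_ 2 ?_ hK hx hcl
  · rw [e]; linear_combination 2 * hc
  · intro n
    have : (cyc2 a t P ha ht0 hP hc).q n = v2 1 P n := rfl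
    rw [this]
    unfold v2
    split_ifs
    · left; rfl
    · right; left; rfl
  · intro N hN F hodd
    have := rel2 hodd a t P ha ht0 hP hc
    push_cast
    exact this

/-- period four -/
theorem good4 {t a b : ℕ} {P : ℤ} (ht0 : 0 < t) (ha : 0 < a) (hb : 0 < b) (hP : 1 < P)
    (hQ : 1 < 1 + a * t - (a : ℤ) ^ 2 * P)
    (hc : b * (1 + a * t - (a : ℤ) ^ 2 * P) = 2 * a * P - t)
    {D : ℕ} (hD : (D : ℤ) = (t : ℤ) ^ 2 + 4 * P)
    (hsf : Squarefree (D : ℤ)) (ht : t % 2 = 1)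
    {K : Type*} [Field K] [NumberField K] (hK : Module.finrank ℚ K = 2) {x : K}
    (hx : x ^ 2 = ((D : ℤ) : K)) (hcl : NumberField.classNumber K = 1) :
    Good4 t P a b D := by
  refine good_of_ecyc (cyc4 a b t P _ ha hb ht0 hP hQ rfl hc) hD hsf ht hc ?_ 1 ?_ hK hx hcl
  · intro n
    have : (cyc4 a b t P _ ha hb ht0 hP hQ rfl hc).q n =
      v4 1 P (1 + a * t - (a : ℤ) ^ 2 * P) P n := rfl
    rw [this]
    unfold v4
    split_ifs
    · left; rfl
    · right; left; rfl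
    · right; right; rfl
    · right; left; rfl
  · intro N hN F hodd
    have := rel4 hodd a b t P _ ha hb ht0 hP hQ rfl hc
    rw [Int.cast_one, one_mul]
    exact this

/-- the parameters of a period of length 4 -/
def Par4 (t P a b : ℤ) : Prop :=
  0 < t ∧ 1 < P ∧ 0 < a ∧ 0 < b ∧ 1 < 1 + a * t - a ^ 2 * P ∧
    b * (1 + a * t - a ^ 2 * P) = 2 * a * P - t

theorem good_of_par4 {t P a b : ℤ} (h : Par4 t P a b) {D : ℕ} (hD : (D : ℤ) = t ^ 2 + 4 * P)
    (hsf : Squarefree (D : ℤ)) (ht : t % 2 = 1)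
    {K : Type*} [Field K] [NumberField K] (hK : Module.finrank ℚ K = 2) {x : K}
    (hx : x ^ 2 = ((D : ℤ) : K)) (hcl : NumberField.classNumber K = 1) :
    Good4 t P a b D := by
  obtain ⟨h1, hP, ha, hb, hQ, hc⟩ := h
  obtain ⟨t', rfl⟩ := Int.eq_ofNat_of_zero_le h1.le
  obtain ⟨a', rfl⟩ := Int.eq_ofNat_of_zero_le ha.le
  obtain ⟨b', rfl⟩ := Int.eq_ofNat_of_zero_le hb.le
  exact good4 (by exact_mod_cast h1) (by exact_mod_cast ha) (by exact_mod_cast hb) hP hQ hc hD hsf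
    (by exact_mod_cast ht) hK hx hcl

end Pool.Agent.N156.EP
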