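import Pool.Agent.N911.K5
import Pool.Agent.N156.EP.A5

/-! Kernel-friendly search functions for cycles of length 2 and 4.

Convention (as in `N911.K1`): every residue or index used for table lookup is passed multiplied by
seven. -/

namespace Pool.Agent.N156.EP

open H419R2 Finset
open Pool.Agent.N911

/-- geometry modulo `l` -/
def geo4 (l I a b t P : ℕ) (f : Leaf) : Bool :=
  force (Nat.mod (Nat.add (Nat.mul (Nat.mul 2 a) P) (Nat.sub l t)) l) (fun B =>
  force (Nat.mod (Nat.add (Nat.add 1 (Nat.mul a t)) (Nat.mul (Nat.mul a a) (Nat.sub l P))) l) (fun R =>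
  force (look I P) (fun i => force (look I R) (fun j =>
  force (Nat.mul 7 P) (fun P7 => force (Nat.mul 7 R) (fun R7 =>
  force (Nat.mul 7 (Nat.add (Nat.mul t l) P)) (fun k0 =>
  force (Nat.mul 7 (Nat.add (Nat.mul (Nat.mod (Nat.mul B i) l) l) (Nat.mod (Nat.mul R i) l))) (fun k1 =>
  force (Nat.mul 7 (Nat.add (Nat.mul b l) (Nat.mod (Nat.mul P j) l))) (fun k2 =>
    f a b t P7 R7 k0 k1 k2)))))))))

/-- test for residues, then geometry -/
def tge4 (l I Q a b t P : ℕ) (f : Leaf) : Bool :=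
  @Bool.rec (fun _ => Bool) (geo4 l I a b t P f) true
    (tb Q (Nat.mod (Nat.add (Nat.mul t t) (Nat.mul 4 P)) l))

/-- given `a b t`, all admissible `P` -/
def enP4 (l I Q a b q0 q1 q2 t : ℕ) (f : Leaf) : Bool :=
  force (Nat.mod (Nat.add (Nat.mul t q1) q2) l) (fun v =>
    @Nat.rec (fun _ => Bool)
      (imp (Nat.beq v 0) (allN l (fun P => tge4 l I Q a b t P f)))
      (fun _ _ => force (Nat.mod (Nat.mul v (look I q0)) l) (fun P => tge4 l I Q a b t P f)) q0)

/-- continuants -/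
def cont4 (l a b : ℕ) (g : ℕ → ℕ → ℕ → Bool) : Bool :=
  force (Nat.mod (Nat.add 1 (Nat.mul a b)) l) (fun c =>
  force (Nat.mod (Nat.mul a (Nat.succ c)) l) (fun q0 => g q0 c b))

/-- enumeration for given `a`, with `t < tb` -/
def enF4 (l I Q a tbd : ℕ) (f : Leaf) : Bool :=
  allN l (fun b => cont4 l a b (fun q0 q1 q2 => allN tbd (fun t => enP4 l I Q a b q0 q1 q2 t f)))

/-- enumeration with two linear relations and a filter
`K + T t + A a + B b = 0`, `K' + T' t + A' a + B' b = 0` -/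
def enL4 (l I Q K T A B K' T' A' B' : ℕ) (w : ℕ → ℕ → ℕ → Bool) (f : Leaf) : Bool :=
  nrm l I K T A B K' T' A' B' (fun dk du dv k u v =>
    allN l (fun a => enB l I a dk du dv k u v (fun b t => imp (w a b t)
      (cont4 l a b (fun q0 q1 q2 => enP4 l I Q a b q0 q1 q2 t f)))))

/-- check of a relation whose `B2` sums vanish; table of 7-bit entries -/
def ckV4 (p xP e0 e1 P k0 k1 : ℕ) : Bool :=
  Nat.beq (Nat.mod (Nat.add (sl1 e0 k0) (Nat.mul (sl1 xP P) (sl1 e1 k1))) p) 0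

/-- coefficients of a relation -/
def cof4 (cP cR e0 e1 e2 : ℕ) (g : ℕ → ℕ → ℕ → ℕ → Bool) : Bool :=
  force cP (fun cP => force cR (fun cR => force e0 (fun e0 => force e1 (fun e1 =>
  force e2 (fun e2 =>
  force (Nat.add (Nat.mod e0 128) (Nat.mul cP (Nat.mod e1 128))) (fun K =>
  force (Nat.div e0 128) (fun T =>
  force (Nat.mul 2 (Nat.mul cP (Nat.div e1 128))) (fun A =>
  force (Nat.mul cR (Nat.div e2 128)) (fun B => g K T A B)))))))))

/-- full check of a relation -/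
def ckF4 (p cP cR e0 e1 e2 a b t : ℕ) : Bool :=
  force e0 (fun e0 => force e1 (fun e1 => force e2 (fun e2 =>
    Nat.beq (Nat.mod (Nat.add
      (Nat.add (Nat.add (Nat.mod e0 128) (Nat.mul t (Nat.div e0 128)))
        (Nat.mul cP (Nat.add (Nat.mod e1 128) (Nat.mul (Nat.mul 2 a) (Nat.div e1 128)))))
      (Nat.mul cR (Nat.mul b (Nat.div e2 128)))) p) 0)))

/-! ### Integer data -/

/-- normalized relation -/
def NRel4 (c : CD) (z : Dat) : Prop :=
  ∀ e0 e1 e2 cP cR : ℕ, Ent c e0 z.t z.P → Ent c e1 (z.B1 * z.Pi) (z.R * z.Pi) →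
    Ent c e2 z.b (z.P * z.Ri) → Chv c cP z.P → Chv c cR z.R →
    ((((e0 % 128 : ℕ) : ZMod c.p) + z.t * ((e0 / 128 : ℕ) : ZMod c.p) + cP *
      (((e1 % 128 : ℕ) : ZMod c.p) + 2 * z.a * ((e1 / 128 : ℕ) : ZMod c.p))) +
      cR * (z.b * ((e2 / 128 : ℕ) : ZMod c.p))) = 0

/-- the constraint -/
def Con4 (z : Dat) : Prop := z.b * z.R = z.B1

/-- the relation gives the normalized relation -/
theorem nrel4_of {c : CD} (hc : c.OK) {z : Dat} (hcon : Con4 z)
    (hP : ((z.P * z.Pi : ℤ) : ZMod c.q) = 1)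
    (hR : ((z.R * z.Ri : ℤ) : ZMod c.q) = 1)
    (h : ∀ _ : NeZero c.q, RelM4 (chi c.q c.p c.T) z.t z.P z.a z.b = 0) : NRel4 c z := by
  intro e0 e1 e2 cP cR h0 h1 h2 hcP hcR
  have hq : NeZero c.q := ⟨by have := hc.q1; omega⟩
  obtain ⟨a0, b0⟩ := h0 hq
  obtain ⟨a1, b1⟩ := h1 hq
  obtain ⟨a2, b2⟩ := h2 hq
  have hP' := hcP hq
  have hR' := hcR hq
  have h3 := h hq
  unfold RelM4 at h3
  have hmul := chi_mul hc.mul
  have e1 : (1 + z.a * z.t - z.a ^ 2 * z.P) = z.R := rfl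
  have e2 : (2 * z.a * z.P - z.t) = z.B1 := rfl
  rw [e1, e2] at h3
  have hb : ((z.B1 : ℤ) : ZMod c.q) * z.Ri = z.b := by
    have := congrArg (fun x : ℤ => (x : ZMod c.q)) hcon
    push_cast at this hR
    rw [← this]
    linear_combination (z.b : ZMod c.q) * hR
  push_cast at hP hR a1 b1 a2 b2
  rw [SE_scale hmul (A := (z.P : ZMod c.q)) hP,
    SY_scale hmul (A := (z.P : ZMod c.q)) hP, SY_scale hmul (A := (z.R : ZMod c.q)) hR, hb] at h3
  rw [a0, b0, a1, b1, b2, hP', hR']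
  linear_combination h3

theorem cof4_sound {c : CD} {z : Dat} (h : NRel4 c z) {cP cR e0 e1 e2 : ℕ}
    (h0 : Ent c e0 z.t z.P) (h1 : Ent c e1 (z.B1 * z.Pi) (z.R * z.Pi))
    (h2 : Ent c e2 z.b (z.P * z.Ri)) (hP : Chv c cP z.P) (hR : Chv c cR z.R)
    {g : ℕ → ℕ → ℕ → ℕ → Bool} (hg : cof4 cP cR e0 e1 e2 g = true) :
    ∃ K T A B, Lin z c.p K T A B ∧ g K T A B = true := by
  unfold cof4 at hg
  simp only [force_eq] at hg
  refine ⟨_, _, _, _, ?_, hg⟩
  have h3 := h e0 e1 e2 cP cR h0 h1 h2 hP hR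
  unfold Lin
  change (((e0 % 128 + cP * (e1 % 128) : ℕ) : ZMod c.p)) +
    ((e0 / 128 : ℕ) : ZMod c.p) * z.t + ((2 * (cP * (e1 / 128)) : ℕ) : ZMod c.p) * z.a +
    ((cR * (e2 / 128) : ℕ) : ZMod c.p) * z.b = 0
  push_cast
  linear_combination h3

theorem ckF4_sound {c : CD} {z : Dat} (h : NRel4 c z) {p cP cR e0 e1 e2 a b t : ℕ} (hp : c.p = p)
    (h0 : Ent c e0 z.t z.P) (h1 : Ent c e1 (z.B1 * z.Pi) (z.R * z.Pi))
    (h2 : Ent c e2 z.b (z.P * z.Ri)) (hP : Chv c cP z.P) (hR : Chv c cR z.R)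
    (ha : (a : ZMod p) = z.a) (hb : (b : ZMod p) = z.b) (ht : (t : ZMod p) = z.t) :
    ckF4 p cP cR e0 e1 e2 a b t = true := by
  subst hp
  unfold ckF4
  rw [force_eq, force_eq, force_eq]
  apply beq_mod
  have h3 := h e0 e1 e2 cP cR h0 h1 h2 hP hR
  change ((e0 % 128 + t * (e0 / 128) + cP * (e1 % 128 + 2 * a * (e1 / 128)) +
    cR * (b * (e2 / 128)) : ℕ) : ZMod c.p) = 0
  push_cast
  rw [ha, hb, ht]
  push_cast at h3
  linear_combination h3

theorem ckV4_sound {c : CD} {z : Dat} (h : NRel4 c z)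
    {p xP f0 f1 f2 P k0 k1 k2 cR : ℕ} (hp : c.p = p)
    (h0 : Ent c (sl1 f0 k0) z.t z.P) (h1 : Ent c (sl1 f1 k1) (z.B1 * z.Pi) (z.R * z.Pi))
    (h2 : Ent c (sl1 f2 k2) z.b (z.P * z.Ri)) (hP : Chv c (sl1 xP P) z.P)
    (hR : Chv c cR z.R) :
    ckV4 p xP f0 f1 P k0 k1 = true := by
  subst hp
  unfold ckV4
  apply beq_mod
  have h3 := h _ _ _ _ _ h0 h1 h2 hP hR
  rw [Nat.mod_eq_of_lt (sl1_lt f0 k0), Nat.mod_eq_of_lt (sl1_lt f1 k1),
    Nat.div_eq_of_lt (sl1_lt f0 k0),
    Nat.div_eq_of_lt (sl1_lt f1 k1), Nat.div_eq_of_lt (sl1_lt f2 k2)] at h3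
  change ((sl1 f0 k0 + sl1 xP P * sl1 f1 k1 : ℕ) : ZMod c.p) = 0
  push_cast
  push_cast at h3
  linear_combination h3

/-- the leaf at the actual data -/
def At4 (z : Dat) (l : ℕ) (f : Leaf) : Prop :=
  f (res z.a l) (res z.b l) (res z.t l) (7 * res z.P l) (7 * res z.R l) (pk l z.t z.P)
    (pk l (z.B1 * z.Pi) (z.R * z.Pi)) (pk l z.b (z.P * z.Ri)) = true

theorem geo4_sound {z : Dat} {l I : ℕ} (H : LOK z l I) {f : Leaf}
    (h : geo4 l I (res z.a l) (res z.b l) (res z.t l) (res z.P l) f = true) : At4 z l f := by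
  have hl := H.l1
  have hl0 : 0 < l := by omega
  have ca := res_cast' z.a hl0
  have cb := res_cast' z.b hl0
  have ct := res_cast' z.t hl0
  have cP := res_cast' z.P hl0
  have cl : ((l : ℕ) : ZMod l) = 0 := CharP.cast_eq_zero _ _
  have ci := inv_of hl H.hI H.hP
  have cj := inv_of hl H.hI H.hR
  have hB : Nat.mod (Nat.add (Nat.mul (Nat.mul 2 (res z.a l)) (res z.P l))
      (Nat.sub l (res z.t l))) l = res z.B1 l := by
    apply mod_res hl0
    change ((2 * res z.a l * res z.P l + (l - res z.t l) : ℕ) : ZMod l) = _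
    push_cast
    rw [Nat.cast_sub (res_lt z.t hl0).le, ca, cP, ct, cl]
    unfold Dat.B1
    push_cast
    ring
  have hR : Nat.mod (Nat.add (Nat.add 1 (Nat.mul (res z.a l) (res z.t l)))
      (Nat.mul (Nat.mul (res z.a l) (res z.a l)) (Nat.sub l (res z.P l)))) l = res z.R l := by
    apply mod_res hl0
    change ((1 + res z.a l * res z.t l + res z.a l * res z.a l * (l - res z.P l) : ℕ) : ZMod l) = _
    push_cast
    rw [Nat.cast_sub (res_lt z.P hl0).le, ca, cP, ct, cl]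
    unfold Dat.R
    push_cast
    ring
  have cB := res_cast' z.B1 hl0
  have cR := res_cast' z.R hl0
  unfold geo4 at h
  simp only [force_eq, hB, hR] at h
  have h1 : Nat.mod (Nat.mul (res z.B1 l) (look I (res z.P l))) l = res (z.B1 * z.Pi) l := by
    apply mod_res hl0
    change ((res z.B1 l * look I (res z.P l) : ℕ) : ZMod l) = _
    push_cast
    rw [cB, ci]
  have h2 : Nat.mod (Nat.mul (res z.R l) (look I (res z.P l))) l = res (z.R * z.Pi) l := by
    apply mod_res hl0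
    change ((res z.R l * look I (res z.P l) : ℕ) : ZMod l) = _
    push_cast
    rw [cR, ci]
  have h3 : Nat.mod (Nat.mul (res z.P l) (look I (res z.R l))) l = res (z.P * z.Ri) l := by
    apply mod_res hl0
    change ((res z.P l * look I (res z.R l) : ℕ) : ZMod l) = _
    push_cast
    rw [cP, cj]
  rw [h1, h2, h3] at h
  unfold At4 pk
  exact h

theorem tge4_sound {z : Dat} {l I Q : ℕ} (H : LOK z l I) (h4 : l ≠ 4) (hV : V l z.t z.P)
    (hQ : chkIq l Q = true) {f : Leaf}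
    (h : tge4 l I Q (res z.a l) (res z.b l) (res z.t l) (res z.P l) f = true) : At4 z l f := by
  have hl := H.l1
  have hl0 : 0 < l := by omega
  unfold tge4 at h
  have h1 : tb Q (Nat.mod (Nat.add (Nat.mul (res z.t l) (res z.t l)) (Nat.mul 4 (res z.P l))) l) =
      false := by
    by_contra hc
    have hc' := Bool.eq_true_of_not_eq_false hc
    have h2 := tb_square hl0 hQ hc'
    unfold V at hV
    rw [if_neg h4] at hV
    apply hV
    have h3 : ((Nat.add (Nat.mul (res z.t l) (res z.t l)) (Nat.mul 4 (res z.P l)) : ℕ) : ZMod l) =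
        ((z.t ^ 2 + 4 * z.P : ℤ) : ZMod l) := by
      change ((res z.t l * res z.t l + 4 * res z.P l : ℕ) : ZMod l) = _
      push_cast
      rw [res_cast' z.t hl0, res_cast' z.P hl0]
      ring
    rw [h3] at h2
    exact h2
  rw [h1] at h
  exact geo4_sound H h

theorem con4_eq {z : Dat} (h : Con4 z) : z.P * (z.a * (z.a * z.b + 2)) =
    z.t * (1 + z.a * z.b) + z.b := by
  unfold Con4 Dat.B1 Dat.R at h
  linear_combination -h

/-- continuants at the actual data -/
structure Q4 (z : Dat) (l q0 q1 q2 : ℕ) : Prop where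
  q0l : q0 < l
  c0 : (q0 : ZMod l) = z.a * (z.a * z.b + 2)
  c1 : (q1 : ZMod l) = 1 + z.a * z.b
  c2 : (q2 : ZMod l) = z.b

theorem cont4_sound {z : Dat} {l : ℕ} (hl0 : 0 < l) {g : ℕ → ℕ → ℕ → Bool}
    (h : cont4 l (res z.a l) (res z.b l) g = true) :
    ∃ q0 q1 q2, Q4 z l q0 q1 q2 ∧ g q0 q1 q2 = true := by
  have ca := res_cast' z.a hl0
  have cb := res_cast' z.b hl0
  unfold cont4 at h
  simp only [force_eq] at h
  have hc : ((Nat.mod (Nat.add 1 (Nat.mul (res z.a l) (res z.b l))) l : ℕ) : ZMod l) =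
      1 + z.a * z.b := by
    change (((1 + res z.a l * res z.b l) % l : ℕ) : ZMod l) = _
    rw [ZMod.natCast_mod]
    push_cast
    rw [ca, cb]
  set c := Nat.mod (Nat.add 1 (Nat.mul (res z.a l) (res z.b l))) l with hcd
  refine ⟨_, _, _, ⟨Nat.mod_lt _ hl0, ?_, hc, cb⟩, h⟩
  change (((res z.a l * (c + 1)) % l : ℕ) : ZMod l) = _
  rw [ZMod.natCast_mod]
  push_cast
  rw [ca, hc]
  ring

theorem enP4_sound {z : Dat} {l I Q : ℕ} (H : LOK z l I) (hp : l.Prime) (hV : V l z.t z.P)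
    (hQ : chkIq l Q = true) (hcon : Con4 z) {q0 q1 q2 : ℕ} (hq : Q4 z l q0 q1 q2) {f : Leaf}
    (h : enP4 l I Q (res z.a l) (res z.b l) q0 q1 q2 (res z.t l) f = true) : At4 z l f := by
  have hl := H.l1
  have hl0 : 0 < l := by omega
  have hF := Fact.mk hp
  have h4 : l ≠ 4 := by rintro rfl; exact absurd hp (by norm_num)
  have c1 := hq.c1
  have c2 := hq.c2
  have c0 := hq.c0
  have ct := res_cast' z.t hl0
  have ce : (z.P : ZMod l) * (z.a * (z.a * z.b + 2)) =
      z.t * (1 + z.a * z.b) + z.b := by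
    have := congrArg (fun x : ℤ => (x : ZMod l)) (con4_eq hcon)
    push_cast at this
    exact this
  unfold enP4 at h
  rw [force_eq] at h
  have hv : ((Nat.mod (Nat.add (Nat.mul (res z.t l) q1) q2) l : ℕ) : ZMod l) =
      z.P * (q0 : ZMod l) := by
    change (((res z.t l * q1 + q2) % l : ℕ) : ZMod l) = _
    rw [ZMod.natCast_mod]
    push_cast
    rw [ct, c1, c2, c0, ce]
  set v := Nat.mod (Nat.add (Nat.mul (res z.t l) q1) q2) l with hvd
  cases q0 with
  | zero =>
    change imp (Nat.beq v 0) (allN l (fun P => tge4 l I Q (res z.a l) (res z.b l) (res z.t l) P f)) =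
      true at h
    have h1 : v = 0 := by
      rw [Nat.cast_zero, mul_zero] at hv
      have h2 : v < l := Nat.mod_lt _ hl0
      rw [ZMod.natCast_eq_zero_iff] at hv
      exact Nat.eq_zero_of_dvd_of_lt hv h2
    have h2 := imp_true h (by rw [h1]; rfl)
    rw [allN_iff] at h2
    exact tge4_sound H h4 hV hQ (h2 _ (res_lt z.P hl0))
  | succ n =>
    change force (Nat.mod (Nat.mul v (look I (n + 1))) l)
      (fun P => tge4 l I Q (res z.a l) (res z.b l) (res z.t l) P f) = true at h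
    rw [force_eq] at h
    have hu : IsUnit ((n + 1 : ℕ) : ZMod l) := by
      rw [isUnit_iff_ne_zero]
      intro h0
      rw [ZMod.natCast_eq_zero_iff] at h0
      have := Nat.le_of_dvd (by omega) h0
      have := hq.q0l
      omega
    have h5 := chkI_sound hl H.hI hq.q0l hu
    have h6 : Nat.mod (Nat.mul v (look I (n + 1))) l = res z.P l := by
      apply mod_res hl0
      change ((v * look I (n + 1) : ℕ) : ZMod l) = _
      push_cast
      push_cast at hv h5
      rw [hv, mul_assoc, h5, mul_one]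
    rw [h6] at h
    exact tge4_sound H h4 hV hQ h

theorem enF4_sound {z : Dat} {l I Q tbd : ℕ} (H : LOK z l I) (hp : l.Prime) (hV : V l z.t z.P)
    (hQ : chkIq l Q = true) (hcon : Con4 z) {f : Leaf} (htb : res z.t l < tbd)
    (h : enF4 l I Q (res z.a l) tbd f = true) : At4 z l f := by
  have hl := H.l1
  have hl0 : 0 < l := by omega
  unfold enF4 at h
  rw [allN_iff] at h
  obtain ⟨q0, q1, q2, hq, h2⟩ := cont4_sound hl0 (h _ (res_lt z.b hl0))
  rw [allN_iff] at h2
  exact enP4_sound H hp hV hQ hcon hq (h2 _ htb)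

theorem enL4_sound {z : Dat} {l I Q K T A B K' T' A' B' : ℕ} (H : LOK z l I) (hp : l.Prime)
    (hV : V l z.t z.P) (hQ : chkIq l Q = true) (hcon : Con4 z)
    (h1 : Lin z l K T A B) (h2 : Lin z l K' T' A' B') {w : ℕ → ℕ → ℕ → Bool}
    (hw : w (res z.a l) (res z.b l) (res z.t l) = true) {f : Leaf}
    (h : enL4 l I Q K T A B K' T' A' B' w f = true) : At4 z l f := by
  have hl := H.l1
  have hl0 : 0 < l := by omega
  unfold enL4 at h
  obtain ⟨dk, du, dv, k, u, v, hdv, e1, e2, h3⟩ := nrm_sound H hp h1 h2 h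
  rw [allN_iff] at h3
  have h4 := enB_sound H hp hdv e1 e2 (h3 _ (res_lt z.a hl0))
  have h4' := imp_true h4 hw
  obtain ⟨q0, q1, q2, hq, h5⟩ := cont4_sound hl0 h4'
  exact enP4_sound H hp hV hQ hcon hq h5

/-- check of a list -/
noncomputable def chkLL4 (l I Q : ℕ) (L : LL) : Bool :=
  allN l (fun a => enF4 l I Q a l (fun a b t P R k0 k1 k2 => L.any (eqL a b t P R k0 k1 k2)))

theorem LL4_sound {z : Dat} {l I Q : ℕ} {L : LL} (H : LOK z l I)
    (hp : l.Prime) (hV : V l z.t z.P) (hQ : chkIq l Q = true) (hcon : Con4 z)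
    (hL : chkLL4 l I Q L = true) {f : Leaf} (h : L.all f = true) : At4 z l f := by
  have hl0 : 0 < l := by have := H.l1; omega
  unfold chkLL4 at hL
  rw [allN_iff] at hL
  have h7 := enF4_sound H hp hV hQ hcon (res_lt z.t hl0) (hL _ (res_lt z.a hl0))
  unfold At4 at h7 ⊢
  exact LL.all_any h h7

/-- check of the list modulo a power of two, `a` odd -/
noncomputable def chkLT (l I : ℕ) (L : LL) : Bool :=
  allN l (fun a => imp (Nat.beq (Nat.mod a 2) 1)
    (allN l (fun b => cont4 l a b (fun q0 q1 q2 => allN l (fun t => allN l (fun P =>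
    imp (Nat.beq (Nat.mod t 2) 1) (imp (Nat.beq (Nat.mod P 2) 1)
      (imp (Nat.beq (Nat.mod (Nat.mul P q0) l) (Nat.mod (Nat.add (Nat.mul t q1) q2) l))
        (geo4 l I a b t P (fun a b t P R k0 k1 k2 => L.any (eqL a b t P R k0 k1 k2)))))))))))

theorem LT_sound {z : Dat} {l I : ℕ} {L : LL} (H : LOK z l I) (h2l : 2 ∣ l)
    (ha : z.a % 2 = 1) (ht : z.t % 2 = 1) (hP : z.P % 2 = 1) (hcon : Con4 z)
    (hL : chkLT l I L = true) {f : Leaf} (h : L.all f = true) : At4 z l f := by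
  have hl0 : 0 < l := by have := H.l1; omega
  have par : ∀ x : ℤ, x % 2 = 1 → Nat.beq (Nat.mod (res x l) 2) 1 = true := by
    intro x hx
    have e := res_int x (M := l) hl0
    have : Nat.mod (res x l) 2 = 1 := by
      change res x l % 2 = 1
      have h1 : ((res x l : ℕ) : ℤ) % 2 = x % 2 := by
        rw [e]
        exact Int.emod_emod_of_dvd x (by exact_mod_cast h2l)
      omega
    rw [this]; rfl
  unfold chkLT at hL
  rw [allN_iff] at hL
  have h0 := imp_true (hL _ (res_lt z.a hl0)) (par _ ha)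
  rw [allN_iff] at h0
  obtain ⟨q0, q1, q2, hq, h2⟩ := cont4_sound hl0 (h0 _ (res_lt z.b hl0))
  rw [allN_iff] at h2
  have h3 := h2 _ (res_lt z.t hl0)
  rw [allN_iff] at h3
  have h4 := h3 _ (res_lt z.P hl0)
  have h7 := imp_true (imp_true h4 (par _ ht)) (par _ hP)
  have ce := congrArg (fun x : ℤ => (x : ZMod l)) (con4_eq hcon)
  push_cast at ce
  have h8 : ((res z.P l * q0 : ℕ) : ZMod l) = ((res z.t l * q1 + q2 : ℕ) : ZMod l) := by
    push_cast
    rw [res_cast' z.P hl0, res_cast' z.t hl0, hq.c0, hq.c1, hq.c2]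
    exact ce
  rw [ZMod.natCast_eq_natCast_iff'] at h8
  have h9 : Nat.beq (Nat.mod (Nat.mul (res z.P l) q0) l)
      (Nat.mod (Nat.add (Nat.mul (res z.t l) q1) q2) l) = true := by
    change Nat.beq (res z.P l * q0 % l) ((res z.t l * q1 + q2) % l) = true
    rw [h8]; exact Nat.beq_refl _
  have h10 := geo4_sound H (imp_true h7 h9)
  unfold At4 at h10 ⊢
  exact LL.all_any h h10

end Pool.Agent.N156.EP
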