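import Pool.Agent.N156.EP.K1
import Pool.Agent.N156.EP.K2a
import Pool.Agent.N156.EP.K2b
import Pool.Agent.N156.EP.K2c
import Pool.Agent.N911.K2

/-! Stages of the search for cycles of length 2 and 4. -/

set_option maxRecDepth 100000

namespace Pool.Agent.N156.EP

open H419R2
open Pool.Agent.N911

/-- condition without knowledge modulo `p` -/
def ckU4 (p K T A B : ℕ) : Bool :=
  or (Nat.beq (Nat.mod K p) 0) (or (not (Nat.beq (Nat.mod T p) 0))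
    (or (not (Nat.beq (Nat.mod A p) 0)) (not (Nat.beq (Nat.mod B p) 0))))

/-- direct evaluation from three local indices; `e1, e2, e3` are idempotents -/
noncomputable def evT (c : CD) (l1 e1 l2 e2 l3 e3 k1 k2 k3 : ℕ) : ℕ :=
  force (Nat.div k1 7) (fun k1 => force (Nat.div k2 7) (fun k2 => force (Nat.div k3 7) (fun k3 =>
    evB c (Nat.add (Nat.add (Nat.mul (Nat.div k1 l1) e1) (Nat.mul (Nat.div k2 l2) e2))
        (Nat.mul (Nat.div k3 l3) e3))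
      (Nat.add (Nat.add (Nat.mul (Nat.mod k1 l1) e1) (Nat.mul (Nat.mod k2 l2) e2))
        (Nat.mul (Nat.mod k3 l3) e3)))))

/-- direct evaluation of the character -/
noncomputable def chT (c : CD) (e1 e2 e3 P1 P2 P3 : ℕ) : ℕ :=
  look c.T (Nat.mod (Nat.add (Nat.add (Nat.mul (Nat.div P1 7) e1) (Nat.mul (Nat.div P2 7) e2))
    (Nat.mul (Nat.div P3 7) e3)) c.q)

/-- last stage, modulo 73 -/
noncomputable def S73 (cA cB cC cD cE cF cG : CD) (a37 b37 t37 P37 R37 i37 j37 k37 P3 R3 i3 j3 k3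
    P4 R4 i4 j4 k4 a5 b5 t5 a7 b7 t7 P7 R7 i7 j7 k7 P13 R13 i13 j13 k13
    P19 R19 i19 j19 k19 : ℕ) : Bool :=
  cof4 (chD cA 148 112 P7 P37) (chD cA 148 112 R7 R37) (evD cA 7 148 37 112 i7 i37)
    (evD cA 7 148 37 112 j7 j37) (evD cA 7 148 37 112 k7 k37) (fun K T A B =>
  cof4 (chD cB 209 39 P13 P19) (chD cB 209 39 R13 R19) (evD cB 13 209 19 39 i13 i19)
    (evD cB 13 209 19 39 j13 j19) (evD cB 13 209 19 39 k13 k19) (fun K' T' A' B' =>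
  cof4 (chD cC 148 112 P7 P37) (chD cC 148 112 R7 R37) (evD cC 7 148 37 112 i7 i37)
    (evD cC 7 148 37 112 j7 j37) (evD cC 7 148 37 112 k7 k37) (fun K2 T2 A2 B2 =>
  cof4 (chD cD 209 39 P13 P19) (chD cD 209 39 R13 R19) (evD cD 13 209 19 39 i13 i19)
    (evD cD 13 209 19 39 j13 j19) (evD cD 13 209 19 39 k13 k19) (fun K3 T3 A3 B3 =>
  enL4 73 I73 Q73 K T A B K' T' A' B'
    (fun a b t => cj (ckL 73 K2 T2 A2 B2 a b t) (ckL 73 K3 T3 A3 B3 a b t))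
    (fun _ _ _ P73 R73 i73 j73 k73 =>
    imp (ckF4 7 (chD cE 73 220 P4 P73) (chD cE 73 220 R4 R73) (evD cE 4 73 73 220 i4 i73)
      (evD cE 4 73 73 220 j4 j73) (evD cE 4 73 73 220 k4 k73) a7 b7 t7)
    (imp (ckF4 5 (chD cF 73 220 P4 P73) (chD cF 73 220 R4 R73) (evD cF 4 73 73 220 i4 i73)
      (evD cF 4 73 73 220 j4 j73) (evD cF 4 73 73 220 k4 k73) a5 b5 t5)
    (imp (ckF4 37 (chD cG 73 147 P3 P73) (chD cG 73 147 R3 R73) (evD cG 3 73 73 147 i3 i73)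
      (evD cG 3 73 73 147 j3 j73) (evD cG 3 73 73 147 k3 k73) a37 b37 t37) false)))))))

/-- stage modulo 13 -/
noncomputable def S13 (a37 b37 t37 P37 R37 i37 j37 k37 P7 R7 i7 j7 k7 P19 R19 i19 j19 k19
    P3 R3 i3 j3 k3 P5 R5 i5 j5 k5 : ℕ) (next : Leaf) : Bool :=
  cof4 (sl1 (sl 5 X95 P19) P5) (sl1 (sl 5 X95 R19) R5) (sl2 (sl 50 E95 i19) i5)
    (sl2 (sl 50 E95 j19) j5) (sl2 (sl 50 E95 k19) k5) (fun K T A B =>
  cof4 (sl1 (sl 5 (sl 15 X105 P7) P3) P5) (sl1 (sl 5 (sl 15 X105 R7) R3) R5)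
    (sl2 (sl 50 (sl 450 E105 i7) i3) i5) (sl2 (sl 50 (sl 450 E105 j7) j3) j5)
    (sl2 (sl 50 (sl 450 E105 k7) k3) k5) (fun K' T' A' B' =>
  cof4 (sl1 (sl 5 X185 P37) P5) (sl1 (sl 5 X185 R37) R5) (sl2 (sl 50 E185 i37) i5)
    (sl2 (sl 50 E185 j37) j5) (sl2 (sl 50 E185 k37) k5) (fun K2 T2 A2 B2 =>
  cof4 (sl1 (sl 19 X133_13 P7) P19) (sl1 (sl 19 X133_13 R7) R19) (sl2 (sl 722 E133_13 i7) i19)
    (sl2 (sl 722 E133_13 j7) j19) (sl2 (sl 722 E133_13 k7) k19) (fun K3 T3 A3 B3 =>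
  enL4 13 I13 Q13 K T A B K' T' A' B'
    (fun a b t => cj (ckL 13 K2 T2 A2 B2 a b t) (ckL 13 K3 T3 A3 B3 a b t))
    (fun a b t P R i j k =>
    imp (ckF4 37 (sl1 (sl 13 X91 P7) P) (sl1 (sl 13 X91 R7) R) (sl2 (sl 338 E91 i7) i)
      (sl2 (sl 338 E91 j7) j) (sl2 (sl 338 E91 k7) k) a37 b37 t37)
      (next a b t P R i j k))))))

/-- stage modulo 19 -/
noncomputable def S19 (cH : CD) (a37 b37 t37 P37 R37 i37 j37 k37 P3 R3 i3 j3 k3 P4 R4 i4 j4 k4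
    P5 R5 i5 j5 k5 a7 b7 t7 P7 R7 i7 j7 k7 P8 i8 j8 : ℕ) (next : Leaf) : Bool :=
  cof4 (sl1 (sl 7 X259_0 P37) P7) (sl1 (sl 7 X259_0 R37) R7) (sl2 (sl 98 E259_0 i37) i7)
    (sl2 (sl 98 E259_0 j37) j7) (sl2 (sl 98 E259_0 k37) k7) (fun K T A B =>
  cof4 (sl1 (sl 3 X111_1 P37) P3) (sl1 (sl 3 X111_1 R37) R3) (sl2 (sl 18 E111_1 i37) i3)
    (sl2 (sl 18 E111_1 j37) j3) (sl2 (sl 18 E111_1 k37) k3) (fun K' T' A' B' =>
  cof4 (sl1 (sl 7 X259_1 P37) P7) (sl1 (sl 7 X259_1 R37) R7) (sl2 (sl 98 E259_1 i37) i7)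
    (sl2 (sl 98 E259_1 j37) j7) (sl2 (sl 98 E259_1 k37) k7) (fun K2 T2 A2 B2 =>
  cof4 (sl1 (sl 3 X111_0 P37) P3) (sl1 (sl 3 X111_0 R37) R3) (sl2 (sl 18 E111_0 i37) i3)
    (sl2 (sl 18 E111_0 j37) j3) (sl2 (sl 18 E111_0 k37) k3) (fun K3 T3 A3 B3 =>
  enL4 19 I19 Q19 K T A B K' T' A' B'
    (fun a b t => cj (ckL 19 K2 T2 A2 B2 a b t) (ckL 19 K3 T3 A3 B3 a b t))
    (fun a b t P R i j k =>
    imp (ckV4 7 (sl 4 (sl 12 X228 P) P3) (sl 16 (sl 144 E228 i) i3) (sl 16 (sl 144 E228 j) j3)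
      P4 i4 j4)
    (imp (ckF4 37 (sl1 (sl 19 X133_37 P7) P) (sl1 (sl 19 X133_37 R7) R)
      (sl2 (sl 722 E133_37 i7) i) (sl2 (sl 722 E133_37 j7) j) (sl2 (sl 722 E133_37 k7) k)
      a37 b37 t37)
    (imp (ckV4 7 (sl 8 (sl 24 X456 P) P3) (sl 64 (sl 576 E456 i) i3) (sl 64 (sl 576 E456 j) j3)
      P8 i8 j8)
    (imp (ckF4 7 (sl1 (sl 4 (sl 20 X380 P) P5) P4) (sl1 (sl 4 (sl 20 X380 R) R5) R4)
      (sl2 (sl 32 (sl 800 E380 i) i5) i4) (sl2 (sl 32 (sl 800 E380 j) j5) j4)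
      (sl2 (sl 32 (sl 800 E380 k) k5) k4) a7 b7 t7)
    (imp (ckF4 37 (chT cH 133 456 476 P4 P7 P) (chT cH 133 456 476 R4 R7 R)
      (evT cH 4 133 7 456 19 476 i4 i7 i) (evT cH 4 133 7 456 19 476 j4 j7 j)
      (evT cH 4 133 7 456 19 476 k4 k7 k) a37 b37 t37)
      (next a b t P R i j k))))))))))

/-- stage modulo 5 -/
noncomputable def S5 (K T A B : ℕ) (P7 i7 j7 P4 i4 j4 P8 i8 j8 : ℕ) (next : Leaf) : Bool :=
  force (sl 25 (sl 400 E140 i7) i4) (fun e0 => force (sl 25 (sl 400 E140 j7) j4) (fun e1 =>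
  force (sl 5 (sl 20 X140 P7) P4) (fun xP =>
  force (sl 25 (sl 1600 E280 i7) i8) (fun f0 => force (sl 25 (sl 1600 E280 j7) j8) (fun f1 =>
  force (sl 5 (sl 40 X280 P7) P8) (fun yP =>
  N5.all (fun a b t P R i j k => imp (ckL 5 K T A B a b t)
    (imp (ckV4 13 xP e0 e1 P i j) (imp (ckV4 37 yP f0 f1 P i j)
      (next a b t P R i j k))))))))))

/-- stage modulo 7 -/
noncomputable def S7 (P37 i37 j37 : ℕ) (next : Leaf) : Bool :=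
  force (sl 49 E259_2 i37) (fun e0 => force (sl 49 E259_2 j37) (fun e1 =>
  force (sl 7 X259_2 P37) (fun xP =>
  N7.all (fun a b t P R i j k => imp (ckV4 19 xP e0 e1 P i j) (next a b t P R i j k)))))

/-- stage modulo 8 -/
noncomputable def S8 (cI cJ : CD) (P37 R37 i37 j37 k37 a4 b4 t4 : ℕ)
    (next : ℕ → ℕ → ℕ → ℕ → Leaf) : Bool :=
  force (sl 64 E296a i37) (fun e0 => force (sl 64 E296a j37) (fun e1 =>
  force (sl 8 X296a P37) (fun xP =>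
  force (sl 64 E296c i37) (fun f0 => force (sl 64 E296c j37) (fun f1 =>
  force (sl 8 X296c P37) (fun yP =>
  N8.all (fun a b t P R i j k =>
    imp (Nat.beq (Nat.mod a 4) a4) (imp (Nat.beq (Nat.mod b 4) b4) (imp (Nat.beq (Nat.mod t 4) t4)
    (imp (ckV4 7 xP e0 e1 P i j) (imp (ckV4 5 yP f0 f1 P i j)
    (cof4 (chD cI 112 185 P37 P) (chD cI 112 185 R37 R) (evD cI 37 112 8 185 i37 i)
      (evD cI 37 112 8 185 j37 j) (evD cI 37 112 8 185 k37 k) (fun K T A B =>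
    imp (ckU4 7 K T A B)
    (cof4 (chD cJ 112 185 P37 P) (chD cJ 112 185 R37 R) (evD cJ 37 112 8 185 i37 i)
      (evD cJ 37 112 8 185 j37 j) (evD cJ 37 112 8 185 k37 k) (fun K T A B =>
      next K T A B a b t P R i j k)))))))))))))))

/-- stage modulo 4 -/
noncomputable def S4 (P37 i37 j37 : ℕ) (next : Leaf) : Bool :=
  force (sl 16 E148_19 i37) (fun e0 => force (sl 16 E148_19 j37) (fun e1 =>
  force (sl 4 X148_19 P37) (fun xP =>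
  force (sl 16 E148_7 i37) (fun f0 => force (sl 16 E148_7 j37) (fun f1 =>
  force (sl 4 X148_7 P37) (fun yP =>
  N4.all (fun a b t P R i j k => imp (ckV4 19 xP e0 e1 P i j) (imp (ckV4 7 yP f0 f1 P i j)
    (next a b t P R i j k)))))))))

/-- leaf modulo 37 -/
noncomputable def S37 (cA cB cC cD cE cF cG cH cI cJ : CD)
    (a37 b37 t37 P37 R37 i37 j37 k37 : ℕ) : Bool :=
  S4 P37 i37 j37 (fun a4 b4 t4 P4 R4 i4 j4 k4 =>
  S8 cI cJ P37 R37 i37 j37 k37 a4 b4 t4 (fun K T A B _ _ _ P8 _ i8 j8 _ =>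
  S7 P37 i37 j37 (fun a7 b7 t7 P7 R7 i7 j7 k7 =>
  S5 K T A B P7 i7 j7 P4 i4 j4 P8 i8 j8 (fun a5 b5 t5 P5 R5 i5 j5 k5 =>
  N3.all (fun _ _ _ P3 R3 i3 j3 k3 =>
  S19 cH a37 b37 t37 P37 R37 i37 j37 k37 P3 R3 i3 j3 k3 P4 R4 i4 j4 k4 P5 R5 i5 j5 k5
    a7 b7 t7 P7 R7 i7 j7 k7 P8 i8 j8 (fun _ _ _ P19 R19 i19 j19 k19 =>
  S13 a37 b37 t37 P37 R37 i37 j37 k37 P7 R7 i7 j7 k7 P19 R19 i19 j19 k19
    P3 R3 i3 j3 k3 P5 R5 i5 j5 k5 (fun _ _ _ P13 R13 i13 j13 k13 =>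
  S73 cA cB cC cD cE cF cG a37 b37 t37 P37 R37 i37 j37 k37 P3 R3 i3 j3 k3 P4 R4 i4 j4 k4
    a5 b5 t5 a7 b7 t7 P7 R7 i7 j7 k7 P13 R13 i13 j13 k13 P19 R19 i19 j19 k19)))))))

/-- the whole search for one value of `a` modulo 37 -/
noncomputable def run (cA cB cC cD cE cF cG cH cI cJ : CD) (a37 : ℕ) : Bool :=
  enF4 37 I37 Q37 a37 19 (S37 cA cB cC cD cE cF cG cH cI cJ)

end Pool.Agent.N156.EP
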