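import Pool.Agent.N156.EP.TT
import Pool.Agent.N156.EP.K3
import Pool.Agent.N156.EP.D6
import Pool.Agent.N156.EP.D7
import Pool.Agent.N911.K7

/-! Soundness of the stages. -/

set_option maxRecDepth 100000

namespace Pool.Agent.N156.EP

open H419R2 Finset Pool.Agent.N911

/-- the modulus of the whole search -/
def M8 : ℤ := 8 * 3 * 5 * 7 * 13 * 19 * 37 * 73

/-- third index -/
abbrev r2 (z : Dat) (l : ℕ) : ℕ := pk l z.b (z.P * z.Ri)

/-- all that is used about the integers -/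
structure Sys4 (z : Dat) : Prop where
  con : Con4 z
  hP : M8 ∣ z.P * z.Pi - 1
  hR : M8 ∣ z.R * z.Ri - 1
  aod : z.a % 2 = 1
  tod : z.t % 2 = 1
  Pod : z.P % 2 = 1
  nsq : ∀ l : ℕ, l ∈ [3, 5, 7, 13, 19, 37, 73] → ¬ IsSquare ((z.t ^ 2 + 4 * z.P : ℤ) : ZMod l)
  r148_7 : NRel4 c148_7 z
  r148_19 : NRel4 c148_19 z
  r259_0 : NRel4 c259_19_0 z
  r259_1 : NRel4 c259_19_1 z
  r259_2 : NRel4 c259_19_2 z
  r133_37 : NRel4 c133_37 z
  r111_0 : NRel4 c111_19_0 z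
  r111_1 : NRel4 c111_19_1 z
  r228 : NRel4 c228_7 z
  r140 : NRel4 c140_13 z
  r95 : NRel4 c95_13 z
  r105 : NRel4 c105_13 z
  r185 : NRel4 c185_13 z
  r133_13 : NRel4 c133_13 z
  r91 : NRel4 c91_37 z
  r247_0 : NRel4 c247_73_0 z
  r247_1 : NRel4 c247_73_1 z
  r259_73 : NRel4 c259_73 z
  r259_y : NRel4 c259_73_y z
  r296_7a : NRel4 c296_7a z
  r296_7b : NRel4 c296_7b z
  r296_5a : NRel4 c296_5a z
  r296_5b : NRel4 c296_5b z
  r280 : NRel4 c280_37 z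
  r456 : NRel4 c456_7 z
  r380 : NRel4 c380_7 z
  r532 : NRel4 c532_37 z
  r292_7 : NRel4 c292_7 z
  r292_5 : NRel4 c292_5 z
  r219 : NRel4 c219_37 z

theorem one_of8 {x : ℤ} (h : M8 ∣ x - 1) {l : ℕ} (hl : (l : ℤ) ∣ M8) :
    ((x : ℤ) : ZMod l) = 1 := by
  have : ((x - 1 : ℤ) : ZMod l) = 0 := (ZMod.intCast_zmod_eq_zero_iff_dvd _ _).mpr (hl.trans h)
  push_cast at this
  linear_combination this

theorem mem_dvd8 {l : ℕ} (h : l ∈ [3, 5, 7, 13, 19, 37, 73]) : (l : ℤ) ∣ M8 := by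
  unfold M8
  simp only [List.mem_cons, List.not_mem_nil, or_false] at h
  rcases h with rfl | rfl | rfl | rfl | rfl | rfl | rfl <;> norm_num

theorem lok8 {z : Dat} (H : Sys4 z) {l I : ℕ} (l1 : 1 < l) (hI : chkI l I = true)
    (hl : (l : ℤ) ∣ M8) : LOK z l I :=
  ⟨l1, hI, one_of8 H.hP hl, one_of8 H.hR hl⟩

theorem disc3 {z : Dat} (h : Con4 z) : z.b ^ 2 * z.R ^ 2 + 4 * z.P * z.R = z.t ^ 2 + 4 * z.P := by
  have h1 := disc1 z
  unfold Con4 at h
  rw [← h] at h1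
  linear_combination h1

theorem Sys4.v0 {z : Dat} (H : Sys4 z) {l : ℕ} (h : l ∈ [3, 5, 7, 13, 19, 37, 73]) :
    V l z.t z.P := by
  unfold V
  rw [if_neg (by rintro rfl; simp at h)]
  exact H.nsq l h

theorem Sys4.v1 {z : Dat} (H : Sys4 z) {l : ℕ} (h : l ∈ [3, 5, 7, 13, 19, 37, 73]) :
    V l (z.B1 * z.Pi) (z.R * z.Pi) := by
  unfold V
  rw [if_neg (by rintro rfl; simp at h)]
  intro hs
  apply H.nsq l h
  have e := one_of8 H.hP (mem_dvd8 h)
  push_cast at e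
  apply sq_of (y := (z.Pi : ZMod l)) (y' := (z.P : ZMod l)) e
  have d : ((z.B1 ^ 2 + 4 * z.P * z.R : ℤ) : ZMod l) = ((z.t ^ 2 + 4 * z.P : ℤ) : ZMod l) := by
    rw [disc1]
  rw [← d]
  convert hs using 1
  push_cast
  linear_combination 4 * (z.R : ZMod l) * z.Pi * e

theorem Sys4.v2 {z : Dat} (H : Sys4 z) {l : ℕ} (h : l ∈ [3, 5, 7, 13, 19, 37, 73]) :
    V l z.b (z.P * z.Ri) := by
  unfold V
  rw [if_neg (by rintro rfl; simp at h)]
  intro hs
  apply H.nsq l h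
  have e := one_of8 H.hR (mem_dvd8 h)
  push_cast at e
  apply sq_of (y := (z.Ri : ZMod l)) (y' := (z.R : ZMod l)) e
  have d : ((z.b ^ 2 * z.R ^ 2 + 4 * z.P * z.R : ℤ) : ZMod l) =
      ((z.t ^ 2 + 4 * z.P : ℤ) : ZMod l) := by
    rw [disc3 H.con]
  rw [← d]
  convert hs using 1
  push_cast
  linear_combination (4 * (z.P : ZMod l) * z.Ri + (z.b : ZMod l) ^ 2 * (z.R * z.Ri + 1)) * e

theorem odd8_R {z : Dat} (H : Sys4 z) : z.R % 2 = 1 := by
  have h0 := H.aod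
  have h1 := H.tod
  have h2 := H.Pod
  unfold Dat.R
  obtain ⟨t', ht⟩ : ∃ k, z.t = 2 * k + 1 := ⟨z.t / 2, by omega⟩
  obtain ⟨P', hP⟩ : ∃ k, z.P = 2 * k + 1 := ⟨z.P / 2, by omega⟩
  obtain ⟨a', ha⟩ : ∃ k, z.a = 2 * k + 1 := ⟨z.a / 2, by omega⟩
  rw [ht, hP, ha]
  have e : 1 + (2 * a' + 1) * (2 * t' + 1) - (2 * a' + 1) ^ 2 * (2 * P' + 1) =
      1 + 2 * (a' * (2 * t' + 1) + t' - ((2 * a' ^ 2 + 2 * a') * (2 * P' + 1) + P')) := by ring
  rw [e]
  omega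

theorem odd8_B1 {z : Dat} (H : Sys4 z) : z.B1 % 2 = 1 := by
  have h1 := H.tod
  unfold Dat.B1
  have e : 2 * z.a * z.P - z.t = 2 * (z.a * z.P) - z.t := by ring
  rw [e]; omega

theorem odd8_b {z : Dat} (H : Sys4 z) : z.b % 2 = 1 := by
  have h1 := odd8_B1 H
  have h2 := H.con
  unfold Con4 at h2
  rw [← h2] at h1
  rcases Int.emod_two_eq_zero_or_one z.b with h3 | h3
  · rw [Int.mul_emod, h3, zero_mul] at h1
    exact absurd h1 (by norm_num)
  · exact h3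

theorem odd8_inv {x y : ℤ} (h : M8 ∣ x * y - 1) : y % 2 = 1 := by
  have h1 : (2 : ℤ) ∣ x * y - 1 := (show (2 : ℤ) ∣ M8 by unfold M8; norm_num).trans h
  rcases Int.emod_two_eq_zero_or_one y with h2 | h2
  · exfalso
    have : (x * y) % 2 = 0 := by rw [Int.mul_emod, h2, mul_zero]; rfl
    omega
  · exact h2

theorem V4_of {B C : ℤ} (hB : B % 2 = 1) (hC : C % 2 = 1) : V 4 B C := by
  unfold V; rw [if_pos rfl]; exact ⟨hB, hC⟩

theorem V8_of {B C : ℤ} (hB : B % 2 = 1) (hC : C % 2 = 1) : V 8 B C := by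
  unfold V
  rw [if_neg (by norm_num)]
  have h : ((B ^ 2 + 4 * C : ℤ) : ZMod 8) = 5 := by
    obtain ⟨u, hu⟩ : ∃ k, B = 2 * k + 1 := ⟨B / 2, by omega⟩
    obtain ⟨v, hv⟩ : ∃ k, C = 2 * k + 1 := ⟨C / 2, by omega⟩
    obtain ⟨w, hw⟩ : ∃ k, u * (u + 1) = 2 * k := by
      rcases Int.even_mul_succ_self u with ⟨k, hk⟩
      exact ⟨k, by omega⟩
    have : ((B ^ 2 + 4 * C - 5 : ℤ) : ZMod 8) = 0 := by
      rw [ZMod.intCast_zmod_eq_zero_iff_dvd]
      refine ⟨w + v, ?_⟩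
      rw [hu, hv]
      push_cast
      linear_combination 4 * hw
    push_cast at this ⊢
    linear_combination this
  rw [h]
  decide

theorem Sys4.par {z : Dat} (H : Sys4 z) : (z.B1 * z.Pi) % 2 = 1 ∧ (z.R * z.Pi) % 2 = 1 ∧
    z.b % 2 = 1 ∧ (z.P * z.Ri) % 2 = 1 :=
  ⟨odd_mul (odd8_B1 H) (odd8_inv H.hP), odd_mul (odd8_R H) (odd8_inv H.hP), odd8_b H,
    odd_mul H.Pod (odd8_inv H.hR)⟩

theorem ckU4_sound {z : Dat} {p K T A B : ℕ} (h : Lin z p K T A B) : ckU4 p K T A B = true := by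
  unfold ckU4
  have hb : ∀ x : ℕ, (x : ZMod p) ≠ 0 ∨ Nat.beq (Nat.mod x p) 0 = true := by
    intro x
    by_cases hx : (x : ZMod p) = 0
    · exact Or.inr (beq_mod hx)
    · exact Or.inl hx
  have hn : ∀ x : ℕ, (x : ZMod p) ≠ 0 → (!Nat.beq (Nat.mod x p) 0) = true := by
    intro x hx
    rw [Bool.not_eq_true']
    rw [Bool.eq_false_iff]
    intro h1
    exact hx (cast_zero_of_mod h1)
  rcases hb T with hT | hT
  · rw [hn _ hT]; simp
  · rcases hb A with hA | hA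
    · rw [hn _ hA]; simp
    · rcases hb B with hB | hB
      · rw [hn _ hB]; simp
      · have h1 := cast_zero_of_mod hT
        have h2 := cast_zero_of_mod hA
        have h3 := cast_zero_of_mod hB
        unfold Lin at h
        rw [h1, h2, h3] at h
        have h4 : (K : ZMod p) = 0 := by linear_combination h
        have h5 : Nat.beq (Nat.mod K p) 0 = true := beq_mod h4
        rw [h5]; simp

/-- idempotents -/
def idem3 (l1 e1 l2 e2 l3 e3 q : ℕ) : Bool :=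
  cj (Nat.beq (Nat.mul (Nat.mul l1 l2) l3) q) (cj (Nat.beq (Nat.gcd l1 l2) 1)
    (cj (Nat.beq (Nat.gcd (Nat.mul l1 l2) l3) 1)
    (cj (Nat.beq (Nat.mod e1 l1) 1) (cj (Nat.beq (Nat.mod e1 l2) 0) (cj (Nat.beq (Nat.mod e1 l3) 0)
    (cj (Nat.beq (Nat.mod e2 l1) 0) (cj (Nat.beq (Nat.mod e2 l2) 1) (cj (Nat.beq (Nat.mod e2 l3) 0)
    (cj (Nat.beq (Nat.mod e3 l1) 0) (cj (Nat.beq (Nat.mod e3 l2) 0)
      (Nat.beq (Nat.mod e3 l3) 1)))))))))))

theorem idem3_sound {l1 e1 l2 e2 l3 e3 q : ℕ} (h : idem3 l1 e1 l2 e2 l3 e3 q = true) (x : ℤ)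
    (h1 : 0 < l1) (h2 : 0 < l2) (h3 : 0 < l3) :
    ((res x l1 * e1 + res x l2 * e2 + res x l3 * e3 : ℕ) : ZMod q) = x := by
  unfold idem3 at h
  simp only [cj_true] at h
  obtain ⟨a1, a2, a3, b1, b2, b3, b4, b5, b6, b7, b8, b9⟩ := h
  have a1' : l1 * l2 * l3 = q := Nat.eq_of_beq_eq_true a1
  have a2' : Nat.gcd l1 l2 = 1 := Nat.eq_of_beq_eq_true a2
  have a3' : Nat.gcd (l1 * l2) l3 = 1 := Nat.eq_of_beq_eq_true a3
  have one : ∀ e l : ℕ, Nat.beq (Nat.mod e l) 1 = true → (e : ZMod l) = 1 := by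
    intro e l h
    have h' : e % l = 1 := Nat.eq_of_beq_eq_true h
    rw [← ZMod.natCast_mod, h']; simp
  have zer : ∀ e l : ℕ, Nat.beq (Nat.mod e l) 0 = true → (e : ZMod l) = 0 :=
    fun e l h => cast_zero_of_mod h
  have k1 : (l1 : ℤ) ∣ (res x l1 * e1 + res x l2 * e2 + res x l3 * e3 : ℕ) - x := by
    rw [← ZMod.intCast_zmod_eq_zero_iff_dvd]
    push_cast
    rw [one _ _ b1, zer _ _ b4, zer _ _ b7, res_cast' x h1]
    ring
  have k2 : (l2 : ℤ) ∣ (res x l1 * e1 + res x l2 * e2 + res x l3 * e3 : ℕ) - x := by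
    rw [← ZMod.intCast_zmod_eq_zero_iff_dvd]
    push_cast
    rw [zer _ _ b2, one _ _ b5, zer _ _ b8, res_cast' x h2]
    ring
  have k3 : (l3 : ℤ) ∣ (res x l1 * e1 + res x l2 * e2 + res x l3 * e3 : ℕ) - x := by
    rw [← ZMod.intCast_zmod_eq_zero_iff_dvd]
    push_cast
    rw [zer _ _ b3, zer _ _ b6, one _ _ b9, res_cast' x h3]
    ring
  have k4 : ((q : ℕ) : ℤ) ∣ (res x l1 * e1 + res x l2 * e2 + res x l3 * e3 : ℕ) - x := by
    rw [← a1', Nat.cast_mul]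
    apply IsCoprime.mul_dvd (Nat.isCoprime_iff_coprime.mpr a3') _ k3
    rw [Nat.cast_mul]
    exact IsCoprime.mul_dvd (Nat.isCoprime_iff_coprime.mpr a2') k1 k2
  rw [← ZMod.intCast_zmod_eq_zero_iff_dvd] at k4
  push_cast at k4 ⊢
  linear_combination k4

theorem evT_sound {c : CD} (hc : c.OK) {l1 e1 l2 e2 l3 e3 : ℕ} (h1 : 0 < l1) (h2 : 0 < l2)
    (h3 : 0 < l3) (h : idem3 l1 e1 l2 e2 l3 e3 c.q = true) (B C : ℤ) :
    Ent c (evT c l1 e1 l2 e2 l3 e3 (pk l1 B C) (pk l2 B C) (pk l3 B C)) B C := by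
  unfold evT
  rw [force_eq, force_eq, force_eq, pk_div h1, pk_div h2, pk_div h3]
  have d : ∀ l : ℕ, 0 < l → Nat.div (res B l * l + res C l) l = res B l := by
    intro l hl
    change (res B l * l + res C l) / l = res B l
    rw [mul_comm, Nat.mul_add_div hl, Nat.div_eq_of_lt (res_lt C hl), add_zero]
  have m : ∀ l : ℕ, 0 < l → Nat.mod (res B l * l + res C l) l = res C l := by
    intro l hl
    change (res B l * l + res C l) % l = res C l
    rw [mul_comm, Nat.mul_add_mod, Nat.mod_eq_of_lt (res_lt C hl)]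
  rw [d _ h1, d _ h2, d _ h3, m _ h1, m _ h2, m _ h3]
  exact evB_sound hc (idem3_sound h B h1 h2 h3) (idem3_sound h C h1 h2 h3)

theorem chT_sound {c : CD} {l1 e1 l2 e2 l3 e3 : ℕ} (h1 : 0 < l1) (h2 : 0 < l2)
    (h3 : 0 < l3) (h : idem3 l1 e1 l2 e2 l3 e3 c.q = true) (x : ℤ) :
    Chv c (chT c e1 e2 e3 (7 * res x l1) (7 * res x l2) (7 * res x l3)) x := by
  intro hq
  have hq0 : 0 < c.q := Nat.pos_of_ne_zero hq.out
  unfold chT
  have d : ∀ l, Nat.div (7 * res x l) 7 = res x l := fun l => Nat.mul_div_cancel_left _ (by norm_num)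
  rw [d, d, d]
  have h4 := idem3_sound h x h1 h2 h3
  rw [← h4]
  unfold chi
  rw [ZMod.val_natCast]
  rfl

theorem S73_sound {z : Dat} (H : Sys4 z)
    (h : S73 c259_73_y c247_73_1 c259_73 c247_73_0 c292_7 c292_5 c219_37 (res z.a 37) (res z.b 37) (res z.t 37)
      (pP z 37) (pR z 37) (p0 z 37) (p1 z 37) (r2 z 37)
      (pP z 3) (pR z 3) (p0 z 3) (p1 z 3) (r2 z 3)
      (pP z 4) (pR z 4) (p0 z 4) (p1 z 4) (r2 z 4)
      (res z.a 5) (res z.b 5) (res z.t 5) (res z.a 7) (res z.b 7) (res z.t 7)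
      (pP z 7) (pR z 7) (p0 z 7) (p1 z 7) (r2 z 7)
      (pP z 13) (pR z 13) (p0 z 13) (p1 z 13) (r2 z 13)
      (pP z 19) (pR z 19) (p0 z 19) (p1 z 19) (r2 z 19) = true) : False := by
  have m3 : (3 : ℕ) ∈ [3, 5, 7, 13, 19, 37, 73] := by simp
  have m5 : (5 : ℕ) ∈ [3, 5, 7, 13, 19, 37, 73] := by simp
  have m7 : (7 : ℕ) ∈ [3, 5, 7, 13, 19, 37, 73] := by simp
  have m13 : (13 : ℕ) ∈ [3, 5, 7, 13, 19, 37, 73] := by simp
  have m19 : (19 : ℕ) ∈ [3, 5, 7, 13, 19, 37, 73] := by simp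
  have m37 : (37 : ℕ) ∈ [3, 5, 7, 13, 19, 37, 73] := by simp
  have m73 : (73 : ℕ) ∈ [3, 5, 7, 13, 19, 37, 73] := by simp
  unfold S73 at h
  have ia : idem 7 148 37 112 c259_73_y.q = true := by decide
  have ib : idem 13 209 19 39 c247_73_1.q = true := by decide
  have ic : idem 7 148 37 112 c259_73.q = true := by decide
  have id' : idem 13 209 19 39 c247_73_0.q = true := by decide
  have ie : idem 4 73 73 220 c292_7.q = true := by decide
  have if' : idem 4 73 73 220 c292_5.q = true := by decide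
  have ig : idem 3 73 73 147 c219_37.q = true := by decide
  obtain ⟨K, T, A, B, L1, h⟩ := cof4_sound H.r259_y
    (evD_sound c259_73_y_ok (by norm_num) (by norm_num) ia _ _)
    (evD_sound c259_73_y_ok (by norm_num) (by norm_num) ia _ _)
    (evD_sound c259_73_y_ok (by norm_num) (by norm_num) ia _ _)
    (chD_sound (by norm_num) (by norm_num) ia _)
    (chD_sound (by norm_num) (by norm_num) ia _) h
  obtain ⟨K', T', A', B', L2, h⟩ := cof4_sound H.r247_1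
    (evD_sound c247_73_1_ok (by norm_num) (by norm_num) ib _ _)
    (evD_sound c247_73_1_ok (by norm_num) (by norm_num) ib _ _)
    (evD_sound c247_73_1_ok (by norm_num) (by norm_num) ib _ _)
    (chD_sound (by norm_num) (by norm_num) ib _)
    (chD_sound (by norm_num) (by norm_num) ib _) h
  obtain ⟨K2, T2, A2, B2, L3, h⟩ := cof4_sound H.r259_73
    (evD_sound c259_73_ok (by norm_num) (by norm_num) ic _ _)
    (evD_sound c259_73_ok (by norm_num) (by norm_num) ic _ _)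
    (evD_sound c259_73_ok (by norm_num) (by norm_num) ic _ _)
    (chD_sound (by norm_num) (by norm_num) ic _)
    (chD_sound (by norm_num) (by norm_num) ic _) h
  obtain ⟨K3, T3, A3, B3, L4, h⟩ := cof4_sound H.r247_0
    (evD_sound c247_73_0_ok (by norm_num) (by norm_num) id' _ _)
    (evD_sound c247_73_0_ok (by norm_num) (by norm_num) id' _ _)
    (evD_sound c247_73_0_ok (by norm_num) (by norm_num) id' _ _)
    (chD_sound (by norm_num) (by norm_num) id' _)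
    (chD_sound (by norm_num) (by norm_num) id' _) h
  have ca73 := res_cast' z.a (show 0 < 73 by norm_num)
  have cb73 := res_cast' z.b (show 0 < 73 by norm_num)
  have ct73 := res_cast' z.t (show 0 < 73 by norm_num)
  have ca37 := res_cast' z.a (show 0 < 37 by norm_num)
  have cb37 := res_cast' z.b (show 0 < 37 by norm_num)
  have ct37 := res_cast' z.t (show 0 < 37 by norm_num)
  have ca7 := res_cast' z.a (show 0 < 7 by norm_num)
  have cb7 := res_cast' z.b (show 0 < 7 by norm_num)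
  have ct7 := res_cast' z.t (show 0 < 7 by norm_num)
  have ca5 := res_cast' z.a (show 0 < 5 by norm_num)
  have cb5 := res_cast' z.b (show 0 < 5 by norm_num)
  have ct5 := res_cast' z.t (show 0 < 5 by norm_num)
  have h1 := enL4_sound (lok8 H (by norm_num) ci73 (mem_dvd8 m73)) (by norm_num)
    (H.v0 m73) iq73 H.con L1 L2 (cj_true.mpr ⟨ckL_sound L3 ca73 cb73 ct73,
      ckL_sound L4 ca73 cb73 ct73⟩) h
  unfold At4 at h1
  have h2 := imp_true h1 (ckF4_sound H.r292_7 rfl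
    (evD_sound c292_7_ok (by norm_num) (by norm_num) ie _ _)
    (evD_sound c292_7_ok (by norm_num) (by norm_num) ie _ _)
    (evD_sound c292_7_ok (by norm_num) (by norm_num) ie _ _)
    (chD_sound (by norm_num) (by norm_num) ie _)
    (chD_sound (by norm_num) (by norm_num) ie _) ca7 cb7 ct7)
  have h3 := imp_true h2 (ckF4_sound H.r292_5 rfl
    (evD_sound c292_5_ok (by norm_num) (by norm_num) if' _ _)
    (evD_sound c292_5_ok (by norm_num) (by norm_num) if' _ _)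
    (evD_sound c292_5_ok (by norm_num) (by norm_num) if' _ _)
    (chD_sound (by norm_num) (by norm_num) if' _)
    (chD_sound (by norm_num) (by norm_num) if' _) ca5 cb5 ct5)
  have h4 := imp_true h3 (ckF4_sound H.r219 rfl
    (evD_sound c219_37_ok (by norm_num) (by norm_num) ig _ _)
    (evD_sound c219_37_ok (by norm_num) (by norm_num) ig _ _)
    (evD_sound c219_37_ok (by norm_num) (by norm_num) ig _ _)
    (chD_sound (by norm_num) (by norm_num) ig _)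
    (chD_sound (by norm_num) (by norm_num) ig _) ca37 cb37 ct37)
  exact absurd h4 (by simp)

theorem S13_sound {z : Dat} (H : Sys4 z) {next : Leaf}
    (h : S13 (res z.a 37) (res z.b 37) (res z.t 37) (pP z 37) (pR z 37) (p0 z 37) (p1 z 37) (r2 z 37)
      (pP z 7) (pR z 7) (p0 z 7) (p1 z 7) (r2 z 7) (pP z 19) (pR z 19) (p0 z 19) (p1 z 19) (r2 z 19) (pP z 3) (pR z 3) (p0 z 3) (p1 z 3) (r2 z 3)
      (pP z 5) (pR z 5) (p0 z 5) (p1 z 5) (r2 z 5) next = true) : At4 z 13 next := by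
  have m3 : (3 : ℕ) ∈ [3, 5, 7, 13, 19, 37, 73] := by simp
  have m5 : (5 : ℕ) ∈ [3, 5, 7, 13, 19, 37, 73] := by simp
  have m7 : (7 : ℕ) ∈ [3, 5, 7, 13, 19, 37, 73] := by simp
  have m13 : (13 : ℕ) ∈ [3, 5, 7, 13, 19, 37, 73] := by simp
  have m19 : (19 : ℕ) ∈ [3, 5, 7, 13, 19, 37, 73] := by simp
  have m37 : (37 : ℕ) ∈ [3, 5, 7, 13, 19, 37, 73] := by simp
  have m73 : (73 : ℕ) ∈ [3, 5, 7, 13, 19, 37, 73] := by simp
  unfold S13 at h
  obtain ⟨K, T, A, B, L1, h⟩ := cof4_sound H.r95 (tab_95 (H.v0 m19) (H.v0 m5)) (tab_95 (H.v1 m19) (H.v1 m5)) (tab_95 (H.v2 m19) (H.v2 m5))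
    (chv_95 z.P) (chv_95 z.R) h
  obtain ⟨K', T', A', B', L2, h⟩ := cof4_sound H.r105
    (tab_105 (H.v0 m7) (H.v0 m3) (H.v0 m5)) (tab_105 (H.v1 m7) (H.v1 m3) (H.v1 m5))
    (tab_105 (H.v2 m7) (H.v2 m3) (H.v2 m5)) (chv_105 z.P) (chv_105 z.R) h
  obtain ⟨K2, T2, A2, B2, L3, h⟩ := cof4_sound H.r185 (tab_185 (H.v0 m37) (H.v0 m5)) (tab_185 (H.v1 m37) (H.v1 m5)) (tab_185 (H.v2 m37) (H.v2 m5))
    (chv_185 z.P) (chv_185 z.R) h
  obtain ⟨K3, T3, A3, B3, L4, h⟩ := cof4_sound H.r133_13 (tab_133_13 (H.v0 m7) (H.v0 m19)) (tab_133_13 (H.v1 m7) (H.v1 m19)) (tab_133_13 (H.v2 m7) (H.v2 m19))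
    (chv_133_13 z.P) (chv_133_13 z.R) h
  have ca13 := res_cast' z.a (show 0 < 13 by norm_num)
  have cb13 := res_cast' z.b (show 0 < 13 by norm_num)
  have ct13 := res_cast' z.t (show 0 < 13 by norm_num)
  have ca37 := res_cast' z.a (show 0 < 37 by norm_num)
  have cb37 := res_cast' z.b (show 0 < 37 by norm_num)
  have ct37 := res_cast' z.t (show 0 < 37 by norm_num)
  have h1 := enL4_sound (lok8 H (by norm_num) ci13 (mem_dvd8 m13)) (by norm_num)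
    (H.v0 m13) iq13 H.con L1 L2 (cj_true.mpr ⟨ckL_sound L3 ca13 cb13 ct13,
      ckL_sound L4 ca13 cb13 ct13⟩) h
  unfold At4 at h1 ⊢
  exact imp_true h1 (ckF4_sound H.r91 rfl (tab_91 (H.v0 m7) (H.v0 m13)) (tab_91 (H.v1 m7) (H.v1 m13)) (tab_91 (H.v2 m7) (H.v2 m13))
    (chv_91 z.P) (chv_91 z.R) ca37 cb37 ct37)

theorem S19_sound {z : Dat} (H : Sys4 z) {next : Leaf}
    (h : S19 c532_37 (res z.a 37) (res z.b 37) (res z.t 37)
      (pP z 37) (pR z 37) (p0 z 37) (p1 z 37) (r2 z 37)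
      (pP z 3) (pR z 3) (p0 z 3) (p1 z 3) (r2 z 3)
      (pP z 4) (pR z 4) (p0 z 4) (p1 z 4) (r2 z 4)
      (pP z 5) (pR z 5) (p0 z 5) (p1 z 5) (r2 z 5)
      (res z.a 7) (res z.b 7) (res z.t 7) (pP z 7) (pR z 7) (p0 z 7) (p1 z 7) (r2 z 7)
      (pP z 8) (p0 z 8) (p1 z 8) next = true) : At4 z 19 next := by
  have m3 : (3 : ℕ) ∈ [3, 5, 7, 13, 19, 37, 73] := by simp
  have m5 : (5 : ℕ) ∈ [3, 5, 7, 13, 19, 37, 73] := by simp
  have m7 : (7 : ℕ) ∈ [3, 5, 7, 13, 19, 37, 73] := by simp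
  have m13 : (13 : ℕ) ∈ [3, 5, 7, 13, 19, 37, 73] := by simp
  have m19 : (19 : ℕ) ∈ [3, 5, 7, 13, 19, 37, 73] := by simp
  have m37 : (37 : ℕ) ∈ [3, 5, 7, 13, 19, 37, 73] := by simp
  have m73 : (73 : ℕ) ∈ [3, 5, 7, 13, 19, 37, 73] := by simp
  obtain ⟨o1, o2, o3, o4⟩ := H.par
  unfold S19 at h
  have ih : idem3 4 133 7 456 19 476 c532_37.q = true := by decide
  obtain ⟨K, T, A, B, L1, h⟩ := cof4_sound H.r259_0 (tab_259_0 (H.v0 m37) (H.v0 m7)) (tab_259_0 (H.v1 m37) (H.v1 m7)) (tab_259_0 (H.v2 m37) (H.v2 m7))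
    (chv_259_0 z.P) (chv_259_0 z.R) h
  obtain ⟨K', T', A', B', L2, h⟩ := cof4_sound H.r111_1 (tab_111_1 (H.v0 m37) (H.v0 m3)) (tab_111_1 (H.v1 m37) (H.v1 m3)) (tab_111_1 (H.v2 m37) (H.v2 m3))
    (chv_111_1 z.P) (chv_111_1 z.R) h
  obtain ⟨K2, T2, A2, B2, L3, h⟩ := cof4_sound H.r259_1 (tab_259_1 (H.v0 m37) (H.v0 m7)) (tab_259_1 (H.v1 m37) (H.v1 m7)) (tab_259_1 (H.v2 m37) (H.v2 m7))
    (chv_259_1 z.P) (chv_259_1 z.R) h
  obtain ⟨K3, T3, A3, B3, L4, h⟩ := cof4_sound H.r111_0 (tab_111_0 (H.v0 m37) (H.v0 m3)) (tab_111_0 (H.v1 m37) (H.v1 m3)) (tab_111_0 (H.v2 m37) (H.v2 m3))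
    (chv_111_0 z.P) (chv_111_0 z.R) h
  have ca19 := res_cast' z.a (show 0 < 19 by norm_num)
  have cb19 := res_cast' z.b (show 0 < 19 by norm_num)
  have ct19 := res_cast' z.t (show 0 < 19 by norm_num)
  have ca37 := res_cast' z.a (show 0 < 37 by norm_num)
  have cb37 := res_cast' z.b (show 0 < 37 by norm_num)
  have ct37 := res_cast' z.t (show 0 < 37 by norm_num)
  have ca7 := res_cast' z.a (show 0 < 7 by norm_num)
  have cb7 := res_cast' z.b (show 0 < 7 by norm_num)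
  have ct7 := res_cast' z.t (show 0 < 7 by norm_num)
  have h1 := enL4_sound (lok8 H (by norm_num) ci19 (mem_dvd8 m19)) (by norm_num)
    (H.v0 m19) iq19 H.con L1 L2 (cj_true.mpr ⟨ckL_sound L3 ca19 cb19 ct19,
      ckL_sound L4 ca19 cb19 ct19⟩) h
  unfold At4 at h1 ⊢
  have h2 := imp_true h1 (ckV4_sound H.r228 rfl (tab_228 (H.v0 m19) (H.v0 m3) (V4_of H.tod H.Pod))
    (tab_228 (H.v1 m19) (H.v1 m3) (V4_of o1 o2)) (tab_228 (H.v2 m19) (H.v2 m3) (V4_of o3 o4))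
    (chv_228 z.P) (chv_228 z.R))
  have h3 := imp_true h2 (ckF4_sound H.r133_37 rfl (tab_133_37 (H.v0 m7) (H.v0 m19)) (tab_133_37 (H.v1 m7) (H.v1 m19)) (tab_133_37 (H.v2 m7) (H.v2 m19))
    (chv_133_37 z.P) (chv_133_37 z.R) ca37 cb37 ct37)
  have h4 := imp_true h3 (ckV4_sound H.r456 rfl (tab_456 (H.v0 m19) (H.v0 m3) (V8_of H.tod H.Pod))
    (tab_456 (H.v1 m19) (H.v1 m3) (V8_of o1 o2)) (tab_456 (H.v2 m19) (H.v2 m3) (V8_of o3 o4))
    (chv_456 z.P) (chv_456 z.R))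
  have h5 := imp_true h4 (ckF4_sound H.r380 rfl
    (tab_380 (H.v0 m19) (H.v0 m5) (V4_of H.tod H.Pod)) (tab_380 (H.v1 m19) (H.v1 m5) (V4_of o1 o2))
    (tab_380 (H.v2 m19) (H.v2 m5) (V4_of o3 o4)) (chv_380 z.P) (chv_380 z.R) ca7 cb7 ct7)
  exact imp_true h5 (ckF4_sound H.r532 rfl
    (evT_sound c532_37_ok (by norm_num) (by norm_num) (by norm_num) ih _ _)
    (evT_sound c532_37_ok (by norm_num) (by norm_num) (by norm_num) ih _ _)
    (evT_sound c532_37_ok (by norm_num) (by norm_num) (by norm_num) ih _ _)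
    (chT_sound (by norm_num) (by norm_num) (by norm_num) ih _)
    (chT_sound (by norm_num) (by norm_num) (by norm_num) ih _) ca37 cb37 ct37)

theorem cl3 : chkLL4 3 I3 Q3 N3 = true := by decide +kernel
theorem cl5 : chkLL4 5 I5 Q5 N5 = true := by decide +kernel
theorem cl7 : chkLL4 7 I7 Q7 N7 = true := by decide +kernel
theorem cl4 : chkLT 4 I4 N4 = true := by decide +kernel
theorem cl8 : chkLT 8 I8 N8 = true := by decide +kernel

theorem S5_sound {z : Dat} (H : Sys4 z) {K T A B : ℕ} (L : Lin z 5 K T A B) {next : Leaf}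
    (h : S5 K T A B (pP z 7) (p0 z 7) (p1 z 7) (pP z 4) (p0 z 4) (p1 z 4) (pP z 8) (p0 z 8)
      (p1 z 8) next = true) : At4 z 5 next := by
  have m3 : (3 : ℕ) ∈ [3, 5, 7, 13, 19, 37, 73] := by simp
  have m5 : (5 : ℕ) ∈ [3, 5, 7, 13, 19, 37, 73] := by simp
  have m7 : (7 : ℕ) ∈ [3, 5, 7, 13, 19, 37, 73] := by simp
  have m13 : (13 : ℕ) ∈ [3, 5, 7, 13, 19, 37, 73] := by simp
  have m19 : (19 : ℕ) ∈ [3, 5, 7, 13, 19, 37, 73] := by simp
  have m37 : (37 : ℕ) ∈ [3, 5, 7, 13, 19, 37, 73] := by simp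
  have m73 : (73 : ℕ) ∈ [3, 5, 7, 13, 19, 37, 73] := by simp
  obtain ⟨o1, o2, o3, o4⟩ := H.par
  unfold S5 at h
  simp only [force_eq] at h
  have h1 := LL4_sound (lok8 H (by norm_num) ci5 (mem_dvd8 m5)) (by norm_num)
    (H.v0 m5) iq5 H.con cl5 h
  unfold At4 at h1 ⊢
  have ca5 := res_cast' z.a (show 0 < 5 by norm_num)
  have cb5 := res_cast' z.b (show 0 < 5 by norm_num)
  have ct5 := res_cast' z.t (show 0 < 5 by norm_num)
  have h2 := imp_true h1 (ckL_sound L ca5 cb5 ct5)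
  have h3 := imp_true h2 (ckV4_sound H.r140 rfl
    (tab_140 (H.v0 m7) (V4_of H.tod H.Pod) (H.v0 m5)) (tab_140 (H.v1 m7) (V4_of o1 o2) (H.v1 m5))
    (tab_140 (H.v2 m7) (V4_of o3 o4) (H.v2 m5)) (chv_140 z.P) (chv_140 z.R))
  exact imp_true h3 (ckV4_sound H.r280 rfl
    (tab_280 (H.v0 m7) (V8_of H.tod H.Pod) (H.v0 m5)) (tab_280 (H.v1 m7) (V8_of o1 o2) (H.v1 m5))
    (tab_280 (H.v2 m7) (V8_of o3 o4) (H.v2 m5)) (chv_280 z.P) (chv_280 z.R))

theorem S7_sound {z : Dat} (H : Sys4 z) {next : Leaf}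
    (h : S7 (pP z 37) (p0 z 37) (p1 z 37) next = true) : At4 z 7 next := by
  have m3 : (3 : ℕ) ∈ [3, 5, 7, 13, 19, 37, 73] := by simp
  have m5 : (5 : ℕ) ∈ [3, 5, 7, 13, 19, 37, 73] := by simp
  have m7 : (7 : ℕ) ∈ [3, 5, 7, 13, 19, 37, 73] := by simp
  have m13 : (13 : ℕ) ∈ [3, 5, 7, 13, 19, 37, 73] := by simp
  have m19 : (19 : ℕ) ∈ [3, 5, 7, 13, 19, 37, 73] := by simp
  have m37 : (37 : ℕ) ∈ [3, 5, 7, 13, 19, 37, 73] := by simp
  have m73 : (73 : ℕ) ∈ [3, 5, 7, 13, 19, 37, 73] := by simp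
  unfold S7 at h
  simp only [force_eq] at h
  have h1 := LL4_sound (lok8 H (by norm_num) ci7 (mem_dvd8 m7)) (by norm_num)
    (H.v0 m7) iq7 H.con cl7 h
  unfold At4 at h1 ⊢
  exact imp_true h1 (ckV4_sound H.r259_2 rfl (tab_259_2 (H.v0 m37) (H.v0 m7)) (tab_259_2 (H.v1 m37) (H.v1 m7)) (tab_259_2 (H.v2 m37) (H.v2 m7))
    (chv_259_2 z.P) (chv_259_2 z.R))

theorem res_mod84 (x : ℤ) : Nat.beq (Nat.mod (res x 8) 4) (res x 4) = true := by
  rw [res_mod x (l := 4) (q := 8) (by norm_num) (by norm_num) (by norm_num)]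
  exact Nat.beq_refl _

theorem S8_sound {z : Dat} (H : Sys4 z) {next : ℕ → ℕ → ℕ → ℕ → Leaf}
    (h : S8 c296_7b c296_5b (pP z 37) (pR z 37) (p0 z 37) (p1 z 37) (r2 z 37) (res z.a 4) (res z.b 4) (res z.t 4) next = true) :
    ∃ K T A B, Lin z 5 K T A B ∧ At4 z 8 (next K T A B) := by
  have m3 : (3 : ℕ) ∈ [3, 5, 7, 13, 19, 37, 73] := by simp
  have m5 : (5 : ℕ) ∈ [3, 5, 7, 13, 19, 37, 73] := by simp
  have m7 : (7 : ℕ) ∈ [3, 5, 7, 13, 19, 37, 73] := by simp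
  have m13 : (13 : ℕ) ∈ [3, 5, 7, 13, 19, 37, 73] := by simp
  have m19 : (19 : ℕ) ∈ [3, 5, 7, 13, 19, 37, 73] := by simp
  have m37 : (37 : ℕ) ∈ [3, 5, 7, 13, 19, 37, 73] := by simp
  have m73 : (73 : ℕ) ∈ [3, 5, 7, 13, 19, 37, 73] := by simp
  obtain ⟨o1, o2, o3, o4⟩ := H.par
  unfold S8 at h
  simp only [force_eq] at h
  have h1 := LT_sound (lok8 H (by norm_num) ci8 (by unfold M8; norm_num)) (by norm_num)
    H.aod H.tod H.Pod H.con cl8 h
  unfold At4 at h1 ⊢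
  have h2 := imp_true (imp_true (imp_true h1 (res_mod84 _)) (res_mod84 _)) (res_mod84 _)
  have h3 := imp_true h2 (ckV4_sound H.r296_7a rfl (tab_296a (H.v0 m37) (V8_of H.tod H.Pod))
    (tab_296a (H.v1 m37) (V8_of o1 o2)) (tab_296a (H.v2 m37) (V8_of o3 o4))
    (chv_296a z.P) (chv_296a z.R))
  have h4 := imp_true h3 (ckV4_sound H.r296_5a rfl (tab_296c (H.v0 m37) (V8_of H.tod H.Pod))
    (tab_296c (H.v1 m37) (V8_of o1 o2)) (tab_296c (H.v2 m37) (V8_of o3 o4))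
    (chv_296c z.P) (chv_296c z.R))
  have ii : idem 37 112 8 185 c296_7b.q = true := by decide
  have ij : idem 37 112 8 185 c296_5b.q = true := by decide
  have h := h4
  obtain ⟨K', T', A', B', L1, h⟩ := cof4_sound H.r296_7b
    (evD_sound c296_7b_ok (by norm_num) (by norm_num) ii _ _)
    (evD_sound c296_7b_ok (by norm_num) (by norm_num) ii _ _)
    (evD_sound c296_7b_ok (by norm_num) (by norm_num) ii _ _)
    (chD_sound (by norm_num) (by norm_num) ii _)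
    (chD_sound (by norm_num) (by norm_num) ii _) h
  have h := imp_true h (ckU4_sound L1)
  obtain ⟨K, T, A, B, L2, h⟩ := cof4_sound H.r296_5b
    (evD_sound c296_5b_ok (by norm_num) (by norm_num) ij _ _)
    (evD_sound c296_5b_ok (by norm_num) (by norm_num) ij _ _)
    (evD_sound c296_5b_ok (by norm_num) (by norm_num) ij _ _)
    (chD_sound (by norm_num) (by norm_num) ij _)
    (chD_sound (by norm_num) (by norm_num) ij _) h
  exact ⟨K, T, A, B, L2, h⟩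

theorem S4_sound {z : Dat} (H : Sys4 z) {next : Leaf}
    (h : S4 (pP z 37) (p0 z 37) (p1 z 37) next = true) : At4 z 4 next := by
  have m3 : (3 : ℕ) ∈ [3, 5, 7, 13, 19, 37, 73] := by simp
  have m5 : (5 : ℕ) ∈ [3, 5, 7, 13, 19, 37, 73] := by simp
  have m7 : (7 : ℕ) ∈ [3, 5, 7, 13, 19, 37, 73] := by simp
  have m13 : (13 : ℕ) ∈ [3, 5, 7, 13, 19, 37, 73] := by simp
  have m19 : (19 : ℕ) ∈ [3, 5, 7, 13, 19, 37, 73] := by simp
  have m37 : (37 : ℕ) ∈ [3, 5, 7, 13, 19, 37, 73] := by simp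
  have m73 : (73 : ℕ) ∈ [3, 5, 7, 13, 19, 37, 73] := by simp
  obtain ⟨o1, o2, o3, o4⟩ := H.par
  unfold S4 at h
  simp only [force_eq] at h
  have h1 := LT_sound (lok8 H (by norm_num) ci4 (by unfold M8; norm_num)) (by norm_num)
    H.aod H.tod H.Pod H.con cl4 h
  unfold At4 at h1 ⊢
  have h2 := imp_true h1 (ckV4_sound H.r148_19 rfl (tab_148_19 (H.v0 m37) (V4_of H.tod H.Pod))
    (tab_148_19 (H.v1 m37) (V4_of o1 o2)) (tab_148_19 (H.v2 m37) (V4_of o3 o4))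
    (chv_148_19 z.P) (chv_148_19 z.R))
  exact imp_true h2 (ckV4_sound H.r148_7 rfl (tab_148_7 (H.v0 m37) (V4_of H.tod H.Pod))
    (tab_148_7 (H.v1 m37) (V4_of o1 o2)) (tab_148_7 (H.v2 m37) (V4_of o3 o4))
    (chv_148_7 z.P) (chv_148_7 z.R))

theorem S37_sound {z : Dat} (H : Sys4 z)
    (h : S37 c259_73_y c247_73_1 c259_73 c247_73_0 c292_7 c292_5 c219_37 c532_37 c296_7b c296_5b (res z.a 37) (res z.b 37) (res z.t 37)
      (pP z 37) (pR z 37) (p0 z 37) (p1 z 37) (r2 z 37) = true) : False := by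
  have m3 : (3 : ℕ) ∈ [3, 5, 7, 13, 19, 37, 73] := by simp
  have m5 : (5 : ℕ) ∈ [3, 5, 7, 13, 19, 37, 73] := by simp
  have m7 : (7 : ℕ) ∈ [3, 5, 7, 13, 19, 37, 73] := by simp
  have m13 : (13 : ℕ) ∈ [3, 5, 7, 13, 19, 37, 73] := by simp
  have m19 : (19 : ℕ) ∈ [3, 5, 7, 13, 19, 37, 73] := by simp
  have m37 : (37 : ℕ) ∈ [3, 5, 7, 13, 19, 37, 73] := by simp
  have m73 : (73 : ℕ) ∈ [3, 5, 7, 13, 19, 37, 73] := by simp
  unfold S37 at h
  have h4 := S4_sound H h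
  unfold At4 at h4
  obtain ⟨K, T, A, B, L, h8⟩ := S8_sound H h4
  unfold At4 at h8
  have h7 := S7_sound H h8
  unfold At4 at h7
  have h5 := S5_sound H L h7
  unfold At4 at h5
  have h3 := LL4_sound (lok8 H (by norm_num) ci3 (mem_dvd8 m3)) (by norm_num)
    (H.v0 m3) iq3 H.con cl3 h5
  unfold At4 at h3
  have h19 := S19_sound H h3
  unfold At4 at h19
  have h13 := S13_sound H h19
  unfold At4 at h13
  exact S73_sound H h13

theorem run_sound {z : Dat} (H : Sys4 z) (ht : res z.t 37 < 19)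
    (h : run c259_73_y c247_73_1 c259_73 c247_73_0 c292_7 c292_5 c219_37 c532_37 c296_7b c296_5b
      (res z.a 37) = true) : False := by
  have m3 : (3 : ℕ) ∈ [3, 5, 7, 13, 19, 37, 73] := by simp
  have m5 : (5 : ℕ) ∈ [3, 5, 7, 13, 19, 37, 73] := by simp
  have m7 : (7 : ℕ) ∈ [3, 5, 7, 13, 19, 37, 73] := by simp
  have m13 : (13 : ℕ) ∈ [3, 5, 7, 13, 19, 37, 73] := by simp
  have m19 : (19 : ℕ) ∈ [3, 5, 7, 13, 19, 37, 73] := by simp
  have m37 : (37 : ℕ) ∈ [3, 5, 7, 13, 19, 37, 73] := by simp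
  have m73 : (73 : ℕ) ∈ [3, 5, 7, 13, 19, 37, 73] := by simp
  unfold run at h
  have h1 := enF4_sound (lok8 H (by norm_num) ci37 (mem_dvd8 m37)) (by norm_num)
    (H.v0 m37) iq37 H.con ht h
  unfold At4 at h1
  exact S37_sound H h1

end Pool.Agent.N156.EP
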