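import Pool.Agent.N156.EP.K2a
import Pool.Agent.N156.EP.K2b
import Pool.Agent.N156.EP.K2c
import Pool.Agent.N156.EP.D1
import Pool.Agent.N156.EP.D2
import Pool.Agent.N156.EP.D3
import Pool.Agent.N156.EP.D4
import Pool.Agent.N156.EP.D5
import Pool.Agent.N911.K2
import Pool.Agent.N911.K6

/-! Checks of tables. -/

set_option maxRecDepth 1000000

namespace Pool.Agent.N156.EP

open H419R2 Pool.Agent.N911

theorem ck_380_8 : chkG c380_7 (ent3 2 E380 19 5 4)
    (fun B C => or (vt 19 Q19 B C) (or (vt 5 Q5 B C) (vt 4 3 B C))) 127 16 = true := by decide +kernel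
theorem ck_296a_0 : chkG c296_7a (ent2 1 E296a 37 8)
    (fun B C => or (vt 37 Q37 B C) (vt 8 19 B C)) 0 37 = true := by decide +kernel
theorem ck_296c_2 : chkG c296_5a (ent2 1 E296c 37 8)
    (fun B C => or (vt 37 Q37 B C) (vt 8 19 B C)) 74 38 = true := by decide +kernel

end Pool.Agent.N156.EP
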