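import Pool.Agent.N156.EP.T1
import Pool.Agent.N156.EP.T2
import Pool.Agent.N156.EP.T3
import Pool.Agent.N156.EP.T4
import Pool.Agent.N156.EP.T5
import Pool.Agent.N156.EP.T6
import Pool.Agent.N156.EP.T7
import Pool.Agent.N156.EP.T8
import Pool.Agent.N156.EP.T9
import Pool.Agent.N156.EP.T10
import Pool.Agent.N156.EP.T11
import Pool.Agent.N156.EP.T12
import Pool.Agent.N156.EP.T13
import Pool.Agent.N156.EP.T14
import Pool.Agent.N911.TT

/-! Tables of sums. -/

set_option maxRecDepth 100000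

namespace Pool.Agent.N156.EP

open H419R2 Pool.Agent.N911

theorem iq8 : chkIq 8 19 = true := by decide +kernel
theorem ci8 : chkI 8 I8 = true := by decide +kernel
theorem all_296a : AllG c296_7a (ent2 1 E296a 37 8)
    (fun B C => or (vt 37 Q37 B C) (vt 8 19 B C)) 149 :=
  ((((AllG.zero.step ck_296a_0 rfl).step ck_296a_1 rfl).step ck_296a_2 rfl).step ck_296a_3 rfl)
theorem tab_296a {B C : ℤ} (v37 : V 37 B C) (v8 : V 8 B C) :
    Ent c296_7a (sl1 (sl 64 E296a (pk 37 B C)) (pk 8 B C)) B C := by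
  rw [sl1_eq]
  exact tab2_sound c296_7a_ok (by norm_num) (by norm_num) (by decide) (by decide) iq37 iq8 all_296a (by decide) v37 v8
theorem cx_296a : chkX2 c296_7a.q c296_7a.T X296a 37 8 = true := by decide +kernel
theorem chv_296a (x : ℤ) : Chv c296_7a (sl1 (sl 8 X296a (7 * res x 37)) (7 * res x 8)) x := by
  rw [sl1_eq]
  exact chkX2_sound (by norm_num) (by norm_num) (by decide) (by decide) cx_296a x
theorem all_296c : AllG c296_5a (ent2 1 E296c 37 8)
    (fun B C => or (vt 37 Q37 B C) (vt 8 19 B C)) 149 :=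
  ((((AllG.zero.step ck_296c_0 rfl).step ck_296c_1 rfl).step ck_296c_2 rfl).step ck_296c_3 rfl)
theorem tab_296c {B C : ℤ} (v37 : V 37 B C) (v8 : V 8 B C) :
    Ent c296_5a (sl1 (sl 64 E296c (pk 37 B C)) (pk 8 B C)) B C := by
  rw [sl1_eq]
  exact tab2_sound c296_5a_ok (by norm_num) (by norm_num) (by decide) (by decide) iq37 iq8 all_296c (by decide) v37 v8
theorem cx_296c : chkX2 c296_5a.q c296_5a.T X296c 37 8 = true := by decide +kernel
theorem chv_296c (x : ℤ) : Chv c296_5a (sl1 (sl 8 X296c (7 * res x 37)) (7 * res x 8)) x := by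
  rw [sl1_eq]
  exact chkX2_sound (by norm_num) (by norm_num) (by decide) (by decide) cx_296c x
theorem all_280 : AllG c280_37 (ent3 1 E280 7 8 5)
    (fun B C => or (vt 7 Q7 B C) (or (vt 8 19 B C) (vt 5 Q5 B C))) 141 :=
  ((((((AllG.zero.step ck_280_0 rfl).step ck_280_1 rfl).step ck_280_2 rfl).step ck_280_3 rfl).step ck_280_4 rfl).step ck_280_5 rfl)
theorem tab_280 {B C : ℤ} (v7 : V 7 B C) (v8 : V 8 B C) (v5 : V 5 B C) :
    Ent c280_37 (sl1 (sl 25 (sl 1600 E280 (pk 7 B C)) (pk 8 B C)) (pk 5 B C)) B C := by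
  rw [sl1_eq]
  exact tab3_sound c280_37_ok (by norm_num) (by norm_num) (by norm_num) (by decide) (by decide) (by decide)
    iq7 iq8 iq5 all_280 (by decide) v7 v8 v5
theorem cx_280 : chkX3 c280_37.q c280_37.T X280 7 8 5 = true := by decide +kernel
theorem chv_280 (x : ℤ) :
    Chv c280_37 (sl1 (sl 5 (sl 40 X280 (7 * res x 7)) (7 * res x 8)) (7 * res x 5)) x := by
  rw [sl1_eq]
  exact chkX3_sound (by norm_num) (by norm_num) (by norm_num) (by decide) (by decide) (by decide)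
    cx_280 x
theorem all_456 : AllG c456_7 (ent3 1 E456 19 3 8)
    (fun B C => or (vt 19 Q19 B C) (or (vt 3 Q3 B C) (vt 8 19 B C))) 229 :=
  ((((((((((((AllG.zero.step ck_456_0 rfl).step ck_456_1 rfl).step ck_456_2 rfl).step ck_456_3 rfl).step ck_456_4 rfl).step ck_456_5 rfl).step ck_456_6 rfl).step ck_456_7 rfl).step ck_456_8 rfl).step ck_456_9 rfl).step ck_456_10 rfl).step ck_456_11 rfl)
theorem tab_456 {B C : ℤ} (v19 : V 19 B C) (v3 : V 3 B C) (v8 : V 8 B C) :
    Ent c456_7 (sl1 (sl 64 (sl 576 E456 (pk 19 B C)) (pk 3 B C)) (pk 8 B C)) B C := by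
  rw [sl1_eq]
  exact tab3_sound c456_7_ok (by norm_num) (by norm_num) (by norm_num) (by decide) (by decide) (by decide)
    iq19 iq3 iq8 all_456 (by decide) v19 v3 v8
theorem cx_456 : chkX3 c456_7.q c456_7.T X456 19 3 8 = true := by decide +kernel
theorem chv_456 (x : ℤ) :
    Chv c456_7 (sl1 (sl 8 (sl 24 X456 (7 * res x 19)) (7 * res x 3)) (7 * res x 8)) x := by
  rw [sl1_eq]
  exact chkX3_sound (by norm_num) (by norm_num) (by norm_num) (by decide) (by decide) (by decide)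
    cx_456 x
theorem all_380 : AllG c380_7 (ent3 2 E380 19 5 4)
    (fun B C => or (vt 19 Q19 B C) (or (vt 5 Q5 B C) (vt 4 3 B C))) 191 :=
  ((((((((((((AllG.zero.step ck_380_0 rfl).step ck_380_1 rfl).step ck_380_2 rfl).step ck_380_3 rfl).step ck_380_4 rfl).step ck_380_5 rfl).step ck_380_6 rfl).step ck_380_7 rfl).step ck_380_8 rfl).step ck_380_9 rfl).step ck_380_10 rfl).step ck_380_11 rfl)
theorem tab_380 {B C : ℤ} (v19 : V 19 B C) (v5 : V 5 B C) (v4 : V 4 B C) :
    Ent c380_7 (sl2 (sl 32 (sl 800 E380 (pk 19 B C)) (pk 5 B C)) (pk 4 B C)) B C := by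
  rw [sl2_eq]
  exact tab3_sound c380_7_ok (by norm_num) (by norm_num) (by norm_num) (by decide) (by decide) (by decide)
    iq19 iq5 iq4 all_380 (by decide) v19 v5 v4
theorem cx_380 : chkX3 c380_7.q c380_7.T X380 19 5 4 = true := by decide +kernel
theorem chv_380 (x : ℤ) :
    Chv c380_7 (sl1 (sl 4 (sl 20 X380 (7 * res x 19)) (7 * res x 5)) (7 * res x 4)) x := by
  rw [sl1_eq]
  exact chkX3_sound (by norm_num) (by norm_num) (by norm_num) (by decide) (by decide) (by decide)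
    cx_380 x

end Pool.Agent.N156.EP
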