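import Pool.Agent.N156.EP.K3
import Pool.Agent.N156.EP.D1
import Pool.Agent.N156.EP.D2
import Pool.Agent.N156.EP.D3
import Pool.Agent.N156.EP.D6
import Pool.Agent.N156.EP.D7

/-! The search. -/

set_option maxRecDepth 1000000

namespace Pool.Agent.N156.EP

open H419R2 Pool.Agent.N911

theorem run_33 : run c259_73_y c247_73_1 c259_73 c247_73_0 c292_7 c292_5 c219_37
    c532_37 c296_7b c296_5b 33 = true := by decide +kernel
theorem run_34 : run c259_73_y c247_73_1 c259_73 c247_73_0 c292_7 c292_5 c219_37
    c532_37 c296_7b c296_5b 34 = true := by decide +kernel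
theorem run_35 : run c259_73_y c247_73_1 c259_73 c247_73_0 c292_7 c292_5 c219_37
    c532_37 c296_7b c296_5b 35 = true := by decide +kernel

end Pool.Agent.N156.EP
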