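import Pool.Agent.N156.EP.W1
import Pool.Agent.N156.EP.W2
import Pool.Agent.N156.EP.W3
import Pool.Agent.N156.EP.W4
import Pool.Agent.N156.EP.W5
import Pool.Agent.N156.EP.W6
import Pool.Agent.N156.EP.W7
import Pool.Agent.N156.EP.W8
import Pool.Agent.N156.EP.W9
import Pool.Agent.N156.EP.W10
import Pool.Agent.N156.EP.W11
import Pool.Agent.N156.EP.W12
import Pool.Agent.N156.EP.W13
import Pool.Agent.N156.EP.K8

/-! The contradiction for cycles of length four without small split primes. -/

set_option maxRecDepth 100000

namespace Pool.Agent.N156.EP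

open H419R2 Pool.Agent.N911

theorem allRun4 : AllRun4 := by
  intro a ha
  match a, ha with
  | 0, _ => exact run_0
  | 1, _ => exact run_1
  | 2, _ => exact run_2
  | 3, _ => exact run_3
  | 4, _ => exact run_4
  | 5, _ => exact run_5
  | 6, _ => exact run_6
  | 7, _ => exact run_7
  | 8, _ => exact run_8
  | 9, _ => exact run_9
  | 10, _ => exact run_10
  | 11, _ => exact run_11
  | 12, _ => exact run_12
  | 13, _ => exact run_13
  | 14, _ => exact run_14
  | 15, _ => exact run_15
  | 16, _ => exact run_16
  | 17, _ => exact run_17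
  | 18, _ => exact run_18
  | 19, _ => exact run_19
  | 20, _ => exact run_20
  | 21, _ => exact run_21
  | 22, _ => exact run_22
  | 23, _ => exact run_23
  | 24, _ => exact run_24
  | 25, _ => exact run_25
  | 26, _ => exact run_26
  | 27, _ => exact run_27
  | 28, _ => exact run_28
  | 29, _ => exact run_29
  | 30, _ => exact run_30
  | 31, _ => exact run_31
  | 32, _ => exact run_32
  | 33, _ => exact run_33
  | 34, _ => exact run_34
  | 35, _ => exact run_35
  | 36, _ => exact run_36
  | n + 37, h => exact absurd h (by omega)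

/-- no data of a cycle of length four with odd `a`, `t` has all of `3, 5, 7, 13, 19, 37, 73` inert -/
theorem core4 (t P a b : ℤ) (D : ℕ) (G : Good4 t P a b D) (ha2 : a % 2 = 1) (ht : t % 2 = 1)
    (hin : ∀ l : ℕ, l ∈ [3, 5, 7, 13, 19, 37, 73] → ¬ IsSquare ((D : ℕ) : ZMod l)) :
    False :=
  core4_of allRun4 G ha2 ht hin

end Pool.Agent.N156.EP
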